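import Mathlib

/-!
# A lemma on representations of symmetric groups

`rep_lemma`: let `B ≤ Z` be stable under the permutations of `X`. If every element of `Z` which is
(modulo `B`) invariant under the stabiliser of a colouring with `< n` colours lies in `B`, and the
antisymmetrisations over all `n`-subsets `T` map `Z` into `B`, then `Z = B`.
-/

namespace VK

open Equiv

variable {k : Type*} [Field k] {α : Type*} [Fintype α] [DecidableEq α]

/-- permutations supported in `T` -/
def ST (T : Finset α) : Finset (Perm α) := Finset.univ.filter fun g => ∀ x, x ∉ T → g x = x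

theorem mem_ST {T : Finset α} {g : Perm α} : g ∈ ST T ↔ ∀ x, x ∉ T → g x = x := by
  simp [ST]

theorem one_mem_ST (T : Finset α) : (1 : Perm α) ∈ ST T := mem_ST.2 fun _ _ => rfl

theorem mul_mem_ST {T : Finset α} {g h : Perm α} (hg : g ∈ ST T) (hh : h ∈ ST T) :
    g * h ∈ ST T := by
  rw [mem_ST] at *
  intro x hx
  rw [Perm.mul_apply, hh x hx, hg x hx]

theorem inv_mem_ST {T : Finset α} {g : Perm α} (hg : g ∈ ST T) : g⁻¹ ∈ ST T := by
  rw [mem_ST] at *
  intro x hx
  rw [Perm.inv_eq_iff_eq, hg x hx]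

theorem swap_mem_ST {T : Finset α} {x y : α} (hx : x ∈ T) (hy : y ∈ T) : swap x y ∈ ST T := by
  rw [mem_ST]
  intro z hz
  exact swap_apply_of_ne_of_ne (fun h => hz (h ▸ hx)) (fun h => hz (h ▸ hy))

theorem ST_mono {T T' : Finset α} (h : T ⊆ T') : ST T ⊆ ST T' := by
  intro g hg
  rw [mem_ST] at *
  exact fun x hx => hg x fun h' => hx (h h')

theorem apply_mem_of_ST {T : Finset α} {g : Perm α} (hg : g ∈ ST T) {x : α} (hx : x ∈ T) :
    g x ∈ T := by
  by_contra h
  have h1 := (mem_ST.1 hg) (g x) h
  rw [g.injective h1] at h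
  exact h hx

theorem apply_notMem_of_ST {T : Finset α} {g : Perm α} (hg : g ∈ ST T) {x : α} (hx : x ∉ T) :
    g x ∉ T := by
  rw [(mem_ST.1 hg) x hx]
  exact hx

variable (k) in
/-- the sign with values in `k` -/
def sg (g : Perm α) : k := ((Perm.sign g : ℤ) : k)

theorem sg_mul (g h : Perm α) : sg k (g * h) = sg k g * sg k h := by
  simp [sg]

theorem sg_one : sg k (1 : Perm α) = 1 := by simp [sg]

theorem sg_swap {x y : α} (h : x ≠ y) : sg k (swap x y) = -1 := by
  simp [sg, Perm.sign_swap h]

theorem sg_mul_self (g : Perm α) : sg k g * sg k g = 1 := by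
  rw [sg, ← Int.cast_mul, Int.units_coe_mul_self, Int.cast_one]

theorem sg_inv (g : Perm α) : sg k g⁻¹ = sg k g := by
  simp [sg]

/-- left multiplication is a bijection of `ST T` -/
theorem sum_ST_mul {V : Type*} [AddCommMonoid V] {T : Finset α} {h : Perm α} (hh : h ∈ ST T)
    (F : Perm α → V) : ∑ g ∈ ST T, F (h * g) = ∑ g ∈ ST T, F g := by
  refine Finset.sum_nbij' (fun g => h * g) (fun g => h⁻¹ * g) ?_ ?_ ?_ ?_ ?_
  · exact fun g hg => mul_mem_ST hh hg
  · exact fun g hg => mul_mem_ST (inv_mem_ST hh) hg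
  · intro g _; simp
  · intro g _; simp
  · intro g _; rfl

theorem sum_ST_insert {V : Type*} [AddCommMonoid V] {T : Finset α} {t : α} (ht : t ∉ T)
    (F : Perm α → V) :
    ∑ g ∈ ST (insert t T), F g = ∑ s ∈ insert t T, ∑ h ∈ ST T, F (swap s t * h) := by
  have h0 : ∀ g ∈ ST (insert t T), g t ∈ insert t T := fun g hg =>
    apply_mem_of_ST hg (Finset.mem_insert_self t T)
  rw [← Finset.sum_fiberwise_of_maps_to h0]
  refine Finset.sum_congr rfl fun s hs => ?_
  refine Finset.sum_nbij' (fun g => swap s t * g) (fun g => swap s t * g) ?_ ?_ ?_ ?_ ?_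
  · intro g hg
    rw [Finset.mem_filter] at hg
    obtain ⟨hg, hgt⟩ := hg
    rw [mem_ST] at hg ⊢
    intro x hx
    rw [Perm.mul_apply]
    by_cases hxt : x = t
    · rw [hxt, hgt, swap_apply_left]
    · have hx' : x ∉ insert t T := by
        rw [Finset.mem_insert]; tauto
      rw [hg x hx']
      exact swap_apply_of_ne_of_ne (fun h => hx' (h ▸ hs)) hxt
  · intro h hh
    rw [Finset.mem_filter]
    constructor
    · exact mul_mem_ST (swap_mem_ST hs (Finset.mem_insert_self t T))
        (ST_mono (Finset.subset_insert t T) hh)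
    · rw [Perm.mul_apply, (mem_ST.1 hh) t ht, swap_apply_right]
  · intro g _; simp
  · intro g _; simp
  · intro g _; simp

variable {V : Type*} [AddCommGroup V] [Module k V] (ρ : Perm α →* Module.End k V)

/-- antisymmetrisation over the permutations of `T` -/
def altT (T : Finset α) (z : V) : V := ∑ g ∈ ST T, sg k g • ρ g z

omit [Fintype α] [DecidableEq α] in
theorem rho_mul (g h : Perm α) (z : V) : ρ (g * h) z = ρ g (ρ h z) := by
  rw [map_mul]; rfl

omit [Fintype α] [DecidableEq α] in
theorem rho_one (z : V) : ρ 1 z = z := by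
  rw [map_one]; rfl

theorem altT_insert {T : Finset α} {t : α} (ht : t ∉ T) (z : V) :
    altT ρ (insert t T) z = altT ρ T z - ∑ s ∈ T, ρ (swap s t) (altT ρ T z) := by
  unfold altT
  rw [sum_ST_insert ht, Finset.sum_insert ht, sub_eq_add_neg, ← Finset.sum_neg_distrib]
  congr 1
  · refine Finset.sum_congr rfl fun h _ => ?_
    rw [swap_self, ← Perm.one_def, one_mul]
  · refine Finset.sum_congr rfl fun s hs => ?_
    rw [map_sum, ← Finset.sum_neg_distrib]
    refine Finset.sum_congr rfl fun h _ => ?_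
    have hst : s ≠ t := fun h' => ht (h' ▸ hs)
    rw [sg_mul, sg_swap hst, map_smul, rho_mul, neg_one_mul, neg_smul]

theorem altT_empty (z : V) : altT ρ ∅ z = z := by
  unfold altT
  have h : ST (∅ : Finset α) = {1} := by
    ext g
    rw [mem_ST, Finset.mem_singleton]
    constructor
    · intro h
      ext x
      rw [h x (Finset.notMem_empty x)]
      rfl
    · rintro rfl x _
      rfl
  rw [h, Finset.sum_singleton, sg_one, one_smul, rho_one]

/-- `altT` is antisymmetric -/
theorem rho_altT {T : Finset α} {g : Perm α} (hg : g ∈ ST T) (z : V) :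
    ρ g (altT ρ T z) = sg k g • altT ρ T z := by
  unfold altT
  conv_rhs => rw [← sum_ST_mul hg]
  rw [map_sum, Finset.smul_sum]
  refine Finset.sum_congr rfl fun h _ => ?_
  rw [map_smul, sg_mul, rho_mul, smul_smul, ← mul_assoc, sg_mul_self, one_mul]

theorem descent [CharZero k] {B : Submodule k V} {X : Finset α}
    (hB : ∀ g ∈ ST X, ∀ z ∈ B, ρ g z ∈ B) (c : α → ℕ) (γ : ℕ) {T : Finset α} (hTX : T ⊆ X)
    {t : α} (htX : t ∈ X) (hct : c t = γ) (hT : ∀ s ∈ T, c s < γ) {z : V}
    (hinv : ∀ g ∈ ST X, (∀ x, c (g x) = c x) → ρ g z - z ∈ B)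
    (hu : ∀ s ∈ T, z + ∑ x ∈ X.filter (fun x => c x = γ), ρ (swap s x) z ∈ B)
    (h1 : altT ρ (insert t T) z ∈ B) : altT ρ T z ∈ B := by
  classical
  set e := B.mkQ with he
  have E0 : ∀ a, e a = 0 ↔ a ∈ B := fun a => by
    rw [he, Submodule.mkQ_apply, Submodule.Quotient.mk_eq_zero]
  have E : ∀ a b, a - b ∈ B → e a = e b := fun a b h => by
    rw [← sub_eq_zero, ← map_sub, E0]; exact h
  have ES : ∀ g ∈ ST X, ∀ a b, e a = e b → e (ρ g a) = e (ρ g b) := by
    intro g hg a b h
    rw [← sub_eq_zero, ← map_sub, E0] at h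
    apply E
    rw [← map_sub]
    exact hB g hg _ h
  have htT : t ∉ T := fun h => by have := hT t h; omega
  set G := X.filter (fun x => c x = γ) with hG
  have hGT : ∀ x ∈ G, x ∉ T := by
    intro x hx h
    rw [hG, Finset.mem_filter] at hx
    have := hT x h
    omega
  have hGX : ∀ x ∈ G, x ∈ X := fun x hx => (Finset.mem_filter.1 hx).1
  have hGc : ∀ x ∈ G, c x = γ := fun x hx => (Finset.mem_filter.1 hx).2
  have htG : t ∈ G := by rw [hG, Finset.mem_filter]; exact ⟨htX, hct⟩
  set v := altT ρ T z with hv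
  have hTX' : ST T ⊆ ST X := ST_mono hTX
  -- (3)
  have h3 : ∀ x ∈ G, e (ρ (swap x t) v) = e v := by
    intro x hx
    rw [hv]
    unfold altT
    rw [map_sum, map_sum, map_sum]
    refine Finset.sum_congr rfl fun g hg => ?_
    rw [map_smul, map_smul, map_smul, ← rho_mul]
    congr 1
    have hc : swap x t * g = g * swap x t := by
      rw [swap_mul_eq_mul_swap, (mem_ST.1 (inv_mem_ST hg)) x (hGT x hx),
        (mem_ST.1 (inv_mem_ST hg)) t htT]
    rw [hc, rho_mul]
    apply ES g (hTX' hg)
    apply E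
    apply hinv _ (swap_mem_ST (hGX x hx) htX)
    intro y
    by_cases h1 : y = x
    · rw [h1, swap_apply_left, hct, hGc x hx]
    · by_cases h2 : y = t
      · rw [h2, swap_apply_right, hct, hGc x hx]
      · rw [swap_apply_of_ne_of_ne h1 h2]
  -- (4)
  have h4 : ∀ x ∈ G, ∀ s ∈ T, e (ρ (swap x t) (ρ (swap s t) v)) = e (ρ (swap s x) v) := by
    intro x hx s hs
    have hsx : s ≠ x := fun h => hGT x hx (h ▸ hs)
    have hst : s ≠ t := fun h => htT (h ▸ hs)
    have hc : swap x t * swap s t = swap s x * swap x t := by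
      rw [mul_swap_eq_swap_mul, swap_apply_of_ne_of_ne hsx hst, swap_apply_right]
    rw [← rho_mul, hc, rho_mul]
    exact ES _ (swap_mem_ST (hTX hs) (hGX x hx)) _ _ (h3 x hx)
  -- (5)
  have h5 : ∀ s ∈ T, ∑ x ∈ G, e (ρ (swap s x) v) = - e v := by
    intro s hs
    have h6 : ∀ x ∈ G, ρ (swap s x) v =
        ∑ g ∈ ST T, sg k g • ρ g (ρ (swap (g⁻¹ s) x) z) := by
      intro x hx
      rw [hv]
      unfold altT
      rw [map_sum]
      refine Finset.sum_congr rfl fun g hg => ?_
      rw [map_smul, ← rho_mul, swap_mul_eq_mul_swap,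
        (mem_ST.1 (inv_mem_ST hg)) x (hGT x hx), rho_mul]
    rw [← map_sum, Finset.sum_congr rfl h6, Finset.sum_comm, map_sum]
    have h7 : ∀ g ∈ ST T, e (∑ x ∈ G, sg k g • ρ g (ρ (swap (g⁻¹ s) x) z)) =
        - e (sg k g • ρ g z) := by
      intro g hg
      rw [← Finset.smul_sum, ← map_sum, map_smul, map_smul, ← smul_neg]
      congr 1
      rw [← map_neg, ← map_neg]
      apply ES g (hTX' hg)
      apply E
      rw [sub_neg_eq_add, add_comm]
      exact hu _ (apply_mem_of_ST (inv_mem_ST hg) hs)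
    rw [Finset.sum_congr rfl h7, Finset.sum_neg_distrib, ← map_sum]
    rfl
  -- (6)
  have h8 : e (∑ x ∈ G, ρ (swap x t) (altT ρ (insert t T) z)) = 0 := by
    rw [E0]
    exact Submodule.sum_mem _ fun x hx => hB _ (swap_mem_ST (hGX x hx) htX) _ h1
  rw [altT_insert ρ htT, ← hv] at h8
  have h9 : e (∑ x ∈ G, ρ (swap x t) (v - ∑ s ∈ T, ρ (swap s t) v)) =
      ((G.card + T.card : ℕ) : k) • e v := by
    rw [map_sum]
    have h10 : ∀ x ∈ G, e (ρ (swap x t) (v - ∑ s ∈ T, ρ (swap s t) v)) =
        e v - ∑ s ∈ T, e (ρ (swap s x) v) := by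
      intro x hx
      rw [map_sub, map_sub, h3 x hx, map_sum, map_sum]
      congr 1
      exact Finset.sum_congr rfl fun s hs => h4 x hx s hs
    rw [Finset.sum_congr rfl h10, Finset.sum_sub_distrib, Finset.sum_comm,
      Finset.sum_congr rfl h5, Finset.sum_const, Finset.sum_const, smul_neg, sub_neg_eq_add,
      ← add_smul, Nat.cast_smul_eq_nsmul]
  rw [h9] at h8
  have h11 : ((G.card + T.card : ℕ) : k) ≠ 0 := by
    rw [Nat.cast_ne_zero]
    have := Finset.card_pos.2 ⟨t, htG⟩
    omega
  rcases smul_eq_zero.1 h8 with h | h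
  · exact absurd h h11
  · exact (E0 v).1 h

theorem u_inv {B : Submodule k V} {X : Finset α}
    (hB : ∀ g ∈ ST X, ∀ z ∈ B, ρ g z ∈ B) (c : α → ℕ) (γ : ℕ) {s : α} (hs : s ∈ X)
    (hcs : c s ≠ γ) {z : V} (hinv : ∀ g ∈ ST X, (∀ x, c (g x) = c x) → ρ g z - z ∈ B)
    {g : Perm α} (hg : g ∈ ST X)
    (hgc : ∀ x, Function.update c s γ (g x) = Function.update c s γ x) :
    ρ g (z + ∑ x ∈ X.filter (fun x => c x = γ), ρ (swap s x) z) -
      (z + ∑ x ∈ X.filter (fun x => c x = γ), ρ (swap s x) z) ∈ B := by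
  classical
  set G := X.filter (fun x => c x = γ) with hG
  have hsG : s ∉ G := by
    rw [hG, Finset.mem_filter]
    exact fun h => hcs h.2
  have h1 : z + ∑ x ∈ G, ρ (swap s x) z = ∑ x ∈ insert s G, ρ (swap s x) z := by
    rw [Finset.sum_insert hsG, swap_self, ← Perm.one_def, rho_one]
  rw [h1]
  set c' := Function.update c s γ with hc'
  have hc's : c' s = γ := by rw [hc']; simp
  have hc'o : ∀ x, x ≠ s → c' x = c x := fun x hx => by rw [hc']; simp [hx]
  have hG' : ∀ x, x ∈ insert s G ↔ x ∈ X ∧ c' x = γ := by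
    intro x
    rw [Finset.mem_insert, hG, Finset.mem_filter]
    by_cases hx : x = s
    · rw [hx]; simp [hs, hc's]
    · rw [hc'o x hx]; tauto
  have hg1 : ∀ x ∈ insert s G, g x ∈ insert s G := by
    intro x hx
    rw [hG'] at hx ⊢
    refine ⟨apply_mem_of_ST hg hx.1, ?_⟩
    rw [hgc x]
    exact hx.2
  have hg2 : ∀ x ∈ insert s G, g⁻¹ x ∈ insert s G := by
    intro x hx
    rw [hG'] at hx ⊢
    refine ⟨apply_mem_of_ST (inv_mem_ST hg) hx.1, ?_⟩
    rw [← hgc (g⁻¹ x)]
    simpa using hx.2
  have h2 : ∑ x ∈ insert s G, ρ (swap s x) z = ∑ x ∈ insert s G, ρ (swap s (g x)) z := by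
    symm
    refine Finset.sum_nbij' (fun x => g x) (fun x => g⁻¹ x) hg1 hg2 ?_ ?_ ?_
    · intro x _; simp
    · intro x _; simp
    · intro x _; rfl
  have h4 : ρ g (∑ x ∈ insert s G, ρ (swap s x) z) = ∑ x ∈ insert s G, ρ g (ρ (swap s x) z) :=
    map_sum _ _ _
  rw [h4, h2, ← Finset.sum_sub_distrib]
  refine Submodule.sum_mem _ fun x hx => ?_
  rw [← rho_mul]
  set h := swap s (g x) * (g * swap s x) with hh
  have h3 : g * swap s x = swap s (g x) * h := by rw [hh]; simp
  rw [h3, rho_mul, ← map_sub]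
  have hxX := ((hG' x).1 hx).1
  have hgxX := ((hG' _).1 (hg1 x hx)).1
  apply hB _ (swap_mem_ST hs hgxX)
  apply hinv
  · exact mul_mem_ST (swap_mem_ST hs hgxX) (mul_mem_ST hg (swap_mem_ST hs hxX))
  have hsw : ∀ w ∈ insert s G, ∀ y, c' (swap s w y) = c' y := by
    intro w hw y
    by_cases h1 : y = s
    · rw [h1, swap_apply_left, hc's, ((hG' w).1 hw).2]
    · by_cases h2 : y = w
      · rw [h2, swap_apply_right, hc's, ((hG' w).1 hw).2]
      · rw [swap_apply_of_ne_of_ne h1 h2]
  have hhc' : ∀ y, c' (h y) = c' y := by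
    intro y
    rw [hh, Perm.mul_apply, Perm.mul_apply, hsw _ (hg1 x hx), hgc, hsw x hx]
  have hhs : h s = s := by
    rw [hh, Perm.mul_apply, Perm.mul_apply, swap_apply_left, swap_apply_right]
  intro y
  by_cases hy : y = s
  · rw [hy, hhs]
  · have hy' : h y ≠ s := by
      intro h'
      rw [← hhs] at h'
      exact hy (h.injective h')
    rw [← hc'o y hy, ← hc'o _ hy']
    exact hhc' y

theorem rep_lemma [CharZero k] {Z B : Submodule k V} {X : Finset α}
    (hZ : ∀ g ∈ ST X, ∀ z ∈ Z, ρ g z ∈ Z) (hB : ∀ g ∈ ST X, ∀ z ∈ B, ρ g z ∈ B) (n : ℕ)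
    (ha : ∀ c : α → ℕ, (X.image c).card < n → ∀ z ∈ Z,
      (∀ g ∈ ST X, (∀ x, c (g x) = c x) → ρ g z - z ∈ B) → z ∈ B)
    (hb : ∀ T, T ⊆ X → T.card = n → ∀ z ∈ Z, altT ρ T z ∈ B) : ∀ z ∈ Z, z ∈ B := by
  classical
  -- the claim for all colourings with values `< N`
  have main : ∀ N r : ℕ, ∀ c : α → ℕ, (∀ x ∈ X, c x < N) → N * X.card ≤ r + ∑ x ∈ X, c x →
      ∀ z ∈ Z, (∀ g ∈ ST X, (∀ x, c (g x) = c x) → ρ g z - z ∈ B) → z ∈ B := by
    intro N r
    induction r using Nat.strong_induction_on with
    | _ r ih =>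
    intro c hcN hr z hz hinv
    by_cases hn : (X.image c).card < n
    · exact ha c hn z hz hinv
    rw [not_lt] at hn
    have D : ∀ m : ℕ, ∀ T, T ⊆ X → T.card + m = n →
        m ≤ ((X.image c).filter (fun γ => ∀ s ∈ T, c s < γ)).card → altT ρ T z ∈ B := by
      intro m
      induction m with
      | zero =>
        intro T hT hTn _
        exact hb T hT (by omega) z hz
      | succ m ihm =>
        intro T hT hTn hm
        set G := (X.image c).filter (fun γ => ∀ s ∈ T, c s < γ) with hG
        have hGne : G.Nonempty := Finset.card_pos.1 (by omega)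
        set γ := G.min' hGne with hγ
        have hγG : γ ∈ G := Finset.min'_mem _ _
        have hγG' := hγG
        rw [hG, Finset.mem_filter, Finset.mem_image] at hγG'
        obtain ⟨⟨t, htX, hct⟩, hTγ⟩ := hγG'
        have htT : t ∉ T := fun h => by have := hTγ t h; omega
        refine descent ρ hB c γ hT htX hct hTγ hinv ?_ ?_
        · intro s hs
          have hsγ := hTγ s hs
          have hsX := hT hs
          have hcard : 0 < X.card := Finset.card_pos.2 ⟨s, hsX⟩
          -- use the induction hypothesis for the recoloured `c'`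
          have hc'N : ∀ x ∈ X, Function.update c s γ x < N := by
            intro x hx
            by_cases hxs : x = s
            · rw [hxs, Function.update_self, ← hct]
              exact hcN t htX
            · rw [Function.update_of_ne hxs]
              exact hcN x hx
          have hsum : ∑ x ∈ X, c x < ∑ x ∈ X, Function.update c s γ x := by
            refine Finset.sum_lt_sum (fun x _ => ?_) ⟨s, hsX, ?_⟩
            · by_cases hxs : x = s
              · rw [hxs, Function.update_self]; omega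
              · rw [Function.update_of_ne hxs]
            · rw [Function.update_self]; exact hsγ
          have hsum' : ∑ x ∈ X, Function.update c s γ x ≤ N * X.card := by
            rw [mul_comm, ← smul_eq_mul]
            exact Finset.sum_le_card_nsmul _ _ _ fun x hx => (hc'N x hx).le
          refine ih (r - 1) (by omega) (Function.update c s γ) hc'N (by omega) _ ?_ ?_
          · exact Z.add_mem hz (Submodule.sum_mem _ fun x hx =>
              hZ _ (swap_mem_ST hsX (Finset.mem_filter.1 hx).1) _ hz)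
          · intro g hg hgc
            exact u_inv ρ hB c γ hsX (by omega) hinv hg hgc
        · refine ihm (insert t T) ?_ ?_ ?_
          · exact Finset.insert_subset htX hT
          · rw [Finset.card_insert_of_notMem htT]; omega
          · have h1 : G.erase γ ⊆
                (X.image c).filter (fun γ => ∀ s ∈ insert t T, c s < γ) := by
              intro γ' hγ'
              rw [Finset.mem_erase] at hγ'
              have h2 := Finset.min'_le G γ' hγ'.2
              have h3 := hγ'.2
              rw [hG, Finset.mem_filter] at h3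
              rw [Finset.mem_filter]
              refine ⟨h3.1, ?_⟩
              intro s hs
              rcases Finset.mem_insert.1 hs with h | h
              · rw [h, hct]
                exact lt_of_le_of_ne h2 (Ne.symm hγ'.1)
              · exact h3.2 s h
            have h2 := Finset.card_le_card h1
            rw [Finset.card_erase_of_mem hγG] at h2
            omega
    have h0 := D n ∅ (Finset.empty_subset X) (by simp) (by simpa using hn)
    rwa [altT_empty] at h0
  intro z hz
  -- an injective colouring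
  obtain ⟨e⟩ : Nonempty (α ≃ Fin (Fintype.card α)) := ⟨Fintype.equivFin α⟩
  refine main (Fintype.card α) (Fintype.card α * X.card) (fun x => (e x : ℕ))
    (fun x _ => (e x).2) (by omega) z hz ?_
  intro g _ hgc
  have hg1 : g = 1 := by
    ext x
    exact e.injective (Fin.ext (hgc x))
  rw [hg1, rho_one, sub_self]
  exact B.zero_mem

end VK
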