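import Pool.Agent.VK.SetModel
import Pool.Agent.VK.Rep

/-!
# Antisymmetric cycles are boundaries
-/

namespace VK

open Equiv

variable {k : Type*} [Field k] {α : Type*} [Fintype α] [DecidableEq α]

/-- moving a block -/
def mv (g : Perm α) (B : Finset α) : Finset α := B.map g.toEmbedding

omit [Fintype α] [DecidableEq α] in
theorem mem_mv {g : Perm α} {B : Finset α} {x : α} : x ∈ mv g B ↔ g⁻¹ x ∈ B :=
  Finset.mem_map_equiv

omit [Fintype α] [DecidableEq α] in
theorem mv_one (B : Finset α) : mv 1 B = B := by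
  ext x; rw [mem_mv]; rfl

omit [Fintype α] [DecidableEq α] in
theorem mv_mul (g h : Perm α) (B : Finset α) : mv (g * h) B = mv g (mv h B) := by
  ext x; rw [mem_mv, mem_mv, mem_mv, mul_inv_rev]; rfl

omit [Fintype α] [DecidableEq α] in
theorem mv_card (g : Perm α) (B : Finset α) : (mv g B).card = B.card := Finset.card_map _

omit [Fintype α] [DecidableEq α] in
theorem mv_inv_mv (g : Perm α) (B : Finset α) : mv g⁻¹ (mv g B) = B := by
  rw [← mv_mul, inv_mul_cancel, mv_one]

omit [Fintype α] [DecidableEq α] in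
theorem mv_mv_inv (g : Perm α) (B : Finset α) : mv g (mv g⁻¹ B) = B := by
  rw [← mv_mul, mul_inv_cancel, mv_one]

theorem mv_subset {g : Perm α} {X : Finset α} (hg : g ∈ ST X) {B : Finset α} (hB : B ⊆ X) :
    mv g B ⊆ X := by
  intro x hx
  rw [mem_mv] at hx
  by_contra h
  have h1 := (mem_ST.1 (inv_mem_ST hg)) x h
  rw [h1] at hx
  exact h (hB hx)

omit [Fintype α] [DecidableEq α] in
theorem mv_disjoint (g : Perm α) {B C : Finset α} (h : Disjoint B C) :
    Disjoint (mv g B) (mv g C) := by
  rw [Finset.disjoint_left] at *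
  intro x hx hx'
  rw [mem_mv] at hx hx'
  exact h hx hx'

variable (k α) in
/-- the action on chains -/
def rho : Perm α →* Module.End k (List (Finset α) → k) where
  toFun g :=
    { toFun := fun z l => z (l.map (mv g⁻¹))
      map_add' := fun _ _ => rfl
      map_smul' := fun _ _ => rfl }
  map_one' := by
    ext z l
    change z (l.map (mv (1 : Perm α)⁻¹)) = z l
    rw [inv_one]
    congr 1
    conv_rhs => rw [← List.map_id l]
    exact List.map_congr_left fun B _ => mv_one B
  map_mul' g h := by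
    ext z l
    change z (l.map (mv (g * h)⁻¹)) = z ((l.map (mv g⁻¹)).map (mv h⁻¹))
    rw [List.map_map]
    congr 1
    refine List.map_congr_left fun B _ => ?_
    rw [mul_inv_rev, mv_mul]
    rfl

omit [Fintype α] [DecidableEq α] in
theorem rho_apply (g : Perm α) (z : List (Finset α) → k) (l : List (Finset α)) :
    rho k α g z l = z (l.map (mv g⁻¹)) := rfl

theorem Alt.rho {z : List (Finset α) → k} (hz : Alt z) (g : Perm α) : Alt (rho k α g z) := by
  intro l₁ a b l₂
  rw [rho_apply, rho_apply, List.map_append, List.map_append]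
  exact hz _ _ _ _

theorem valid_map {d : ℕ} {X : Finset α} {g : Perm α} (hg : g ∈ ST X) {l : List (Finset α)}
    (h : Valid d X l) : Valid d X (l.map (mv g)) := by
  constructor
  · intro B hB
    rw [List.mem_map] at hB
    obtain ⟨C, hC, rfl⟩ := hB
    exact ⟨mv_subset hg (h.1 C hC).1, by rw [mv_card]; exact (h.1 C hC).2⟩
  · rw [List.pairwise_map]
    exact h.2.imp fun hab => mv_disjoint g hab

omit [Fintype α] [DecidableEq α] in
theorem map_mv_inv (g : Perm α) (l : List (Finset α)) : (l.map (mv g⁻¹)).map (mv g) = l := by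
  rw [List.map_map]
  conv_rhs => rw [← List.map_id l]
  exact List.map_congr_left fun B _ => mv_mv_inv g B

theorem Ch.rho {d : ℕ} {X : Finset α} {p : ℕ} {z : List (Finset α) → k} (hz : Ch d X p z)
    {g : Perm α} (hg : g ∈ ST X) : Ch d X p (rho k α g z) := by
  refine ⟨hz.1.rho g, fun l hl => ?_⟩
  rw [rho_apply] at hl
  have h1 := hz.2 _ hl
  constructor
  · have h2 := valid_map hg h1.1
    rwa [map_mv_inv] at h2
  · have h2 := h1.2
    rwa [List.length_map] at h2

/-- chains form a submodule -/
def ChS (k : Type*) [Field k] {α : Type*} (d : ℕ) (X : Finset α) (p : ℕ) :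
    Submodule k (List (Finset α) → k) where
  carrier := {z | Ch d X p z}
  add_mem' := by
    intro z z' hz hz'
    refine ⟨hz.1.add hz'.1, fun l hl => ?_⟩
    by_cases h : z l = 0
    · apply hz'.2
      intro h'
      apply hl
      change z l + z' l = 0
      rw [h, h', add_zero]
    · exact hz.2 l h
  zero_mem' := ⟨Alt.zero, fun l hl => absurd rfl hl⟩
  smul_mem' := by
    intro c z hz
    refine ⟨hz.1.mul c, fun l hl => hz.2 l ?_⟩
    intro h
    apply hl
    change c * z l = 0
    rw [h, mul_zero]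

omit [Fintype α] [DecidableEq α] in
theorem mem_ChS {d : ℕ} {X : Finset α} {p : ℕ} {z : List (Finset α) → k} :
    z ∈ ChS k d X p ↔ Ch d X p z := Iff.rfl

/-- the boundary as a linear map -/
def bdL {β : Type*} (F : Finset β) : (List β → k) →ₗ[k] (List β → k) where
  toFun z := bd F z
  map_add' z z' := by funext l; exact bd_add F z z' l
  map_smul' c z := by funext l; exact bd_mul F c z l

omit [Fintype α] [DecidableEq α] in
theorem bdL_apply {β : Type*} (F : Finset β) (z : List β → k) (l : List β) :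
    bdL F z l = bd F z l := rfl

theorem bdL_rho {d : ℕ} {X : Finset α} {g : Perm α} (hg : g ∈ ST X)
    (z : List (Finset α) → k) :
    bdL (X.powersetCard d) (rho k α g z) = rho k α g (bdL (X.powersetCard d) z) := by
  funext l
  rw [rho_apply, bdL_apply, bdL_apply]
  unfold bd
  refine Finset.sum_nbij' (fun B => mv g⁻¹ B) (fun B => mv g B) ?_ ?_ ?_ ?_ ?_
  · intro B hB
    rw [Finset.mem_powersetCard] at hB ⊢
    exact ⟨mv_subset (inv_mem_ST hg) hB.1, by rw [mv_card]; exact hB.2⟩
  · intro B hB
    rw [Finset.mem_powersetCard] at hB ⊢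
    exact ⟨mv_subset hg hB.1, by rw [mv_card]; exact hB.2⟩
  · intro B _
    exact mv_mv_inv g B
  · intro B _
    exact mv_inv_mv g B
  · intro B _
    rw [rho_apply, List.map_cons]

theorem ChS_rho {d : ℕ} {X : Finset α} {p : ℕ} {g : Perm α} (hg : g ∈ ST X)
    {z : List (Finset α) → k} (hz : z ∈ ChS k d X p) : rho k α g z ∈ ChS k d X p :=
  Ch.rho hz hg

theorem ChS_altT {d : ℕ} {X T : Finset α} (hTX : T ⊆ X) {p : ℕ}
    {z : List (Finset α) → k} (hz : z ∈ ChS k d X p) : altT (rho k α) T z ∈ ChS k d X p :=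
  Submodule.sum_mem _ fun _ hg => Submodule.smul_mem _ _ (ChS_rho (ST_mono hTX hg) hz)

theorem bdL_altT {d : ℕ} {X T : Finset α} (hTX : T ⊆ X) (z : List (Finset α) → k) :
    bdL (X.powersetCard d) (altT (rho k α) T z) =
      altT (rho k α) T (bdL (X.powersetCard d) z) := by
  unfold altT
  rw [map_sum]
  refine Finset.sum_congr rfl fun g hg => ?_
  rw [map_smul, bdL_rho (ST_mono hTX hg)]

theorem altT_apply (T : Finset α) (z : List (Finset α) → k) (l : List (Finset α)) :
    altT (rho k α) T z l = ∑ g ∈ ST T, sg k g * z (l.map (mv g⁻¹)) := by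
  unfold altT
  rw [Finset.sum_apply]
  rfl

omit [Fintype α] in
theorem mv_swap {t s : α} {C : Finset α} (h : t ∈ C ↔ s ∈ C) : mv (swap t s) C = C := by
  ext x
  rw [mem_mv, swap_inv]
  by_cases h1 : x = t
  · rw [h1, swap_apply_left]; exact h.symm
  · by_cases h2 : x = s
    · rw [h2, swap_apply_right]; exact h
    · rw [swap_apply_of_ne_of_ne h1 h2]

/-- an antisymmetric function vanishes on lists fixed by a transposition -/
theorem anti_zero [CharZero k] {T : Finset α} {z : List (Finset α) → k}
    (hanti : ∀ g ∈ ST T, ∀ l, z (l.map (mv g⁻¹)) = sg k g * z l) {s t : α} (hs : s ∈ T)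
    (ht : t ∈ T) (hst : s ≠ t) {l : List (Finset α)} (h : ∀ B ∈ l, (s ∈ B ↔ t ∈ B)) :
    z l = 0 := by
  have h1 := hanti (swap s t) (swap_mem_ST hs ht) l
  have h2 : l.map (mv (swap s t)⁻¹) = l := by
    conv_rhs => rw [← List.map_id l]
    refine List.map_congr_left fun B hB => ?_
    rw [swap_inv, mv_swap (h B hB)]
    rfl
  rw [h2, sg_swap hst, neg_one_mul] at h1
  exact CharZero.eq_neg_self_iff.1 h1

theorem cov_map {T : Finset α} {g : Perm α} (hg : g ∈ ST T) {l : List (Finset α)}
    (h : Cov T l) : Cov T (l.map (mv g)) := by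
  constructor
  · intro t ht
    obtain ⟨B, hB, htB⟩ := h.1 _ (apply_mem_of_ST (inv_mem_ST hg) ht)
    exact ⟨mv g B, List.mem_map_of_mem hB, mem_mv.2 htB⟩
  · intro B hB
    rw [List.mem_map] at hB
    obtain ⟨C, hC, rfl⟩ := hB
    have h1 : mv g C ∩ T = mv g (C ∩ T) := by
      ext x
      rw [Finset.mem_inter, mem_mv, mem_mv, Finset.mem_inter]
      constructor
      · rintro ⟨h1, h2⟩
        exact ⟨h1, apply_mem_of_ST (inv_mem_ST hg) h2⟩
      · rintro ⟨h1, h2⟩
        refine ⟨h1, ?_⟩
        have h3 := apply_mem_of_ST hg h2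
        simpa using h3
    rw [h1, mv_card]
    exact h.2 C hC

theorem cov_map_iff {T : Finset α} {g : Perm α} (hg : g ∈ ST T) {l : List (Finset α)} :
    Cov T (l.map (mv g)) ↔ Cov T l := by
  constructor
  · intro h
    have h1 := cov_map (inv_mem_ST hg) h
    have h2 := map_mv_inv g⁻¹ l
    rw [inv_inv] at h2
    rwa [h2] at h1
  · exact cov_map hg

/-- the antisymmetric lemma -/
theorem anti_boundary [CharZero k] {d p : ℕ} {X T : Finset α} (hTX : T ⊆ X) (hT : T.Nonempty)
    (hq1 : QEx k d X T p) (hq2 : ∀ t ∈ T, QEx k d (X.erase t) (T.erase t) p)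
    {z : List (Finset α) → k} (hz : z ∈ ChS k d X p)
    (hbd : bdL (X.powersetCard d) z = 0)
    (hanti : ∀ g ∈ ST T, rho k α g z = sg k g • z) :
    ∃ w ∈ ChS k d X (p + 1), bdL (X.powersetCard d) w = z := by
  classical
  set F := X.powersetCard d with hF
  set F0 := (X \ T).powersetCard d with hF0
  have hF0F : F0 ⊆ F := Finset.powersetCard_mono Finset.sdiff_subset
  -- blocks in `F \ F0` meet `T`
  have hmeet : ∀ B ∈ F, B ∉ F0 → ∃ t ∈ T, t ∈ B := by
    intro B hB hB0
    rw [hF, Finset.mem_powersetCard] at hB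
    by_contra h
    apply hB0
    rw [hF0, Finset.mem_powersetCard]
    refine ⟨fun x hx => ?_, hB.2⟩
    rw [Finset.mem_sdiff]
    exact ⟨hB.1 hx, fun hxT => h ⟨x, hxT, hx⟩⟩
  have hF0T : ∀ B ∈ F0, ∀ t ∈ T, t ∉ B := by
    intro B hB t ht htB
    rw [hF0, Finset.mem_powersetCard] at hB
    have := hB.1 htB
    rw [Finset.mem_sdiff] at this
    exact this.2 ht
  have hdis : ∀ {X : Finset α} {B : Finset α} {l : List (Finset α)}, Valid d X (B :: l) →
      ∀ C ∈ l, ∀ x ∈ B, x ∉ C := by
    intro X B l h C hC x hx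
    have h1 := h.2
    rw [List.pairwise_cons] at h1
    exact (Finset.disjoint_left.1 (h1.1 C hC)) hx
  have hdis2 : ∀ {X : Finset α} {l : List (Finset α)}, Valid d X l →
      ∀ B ∈ l, ∀ C ∈ l, B ≠ C → Disjoint B C := by
    intro X l h B hB C hC hBC
    have hsym : Std.Symm (α := Finset α) Disjoint := ⟨fun _ _ hab => hab.symm⟩
    exact h.2.forall hB hC hBC
  have hN : ((ST T).card : k) ≠ 0 := by
    rw [Nat.cast_ne_zero]
    exact (Finset.card_pos.2 ⟨1, one_mem_ST T⟩).ne'
  -- support of an antisymmetric chain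
  have hsupp : ∀ z : List (Finset α) → k, z ∈ ChS k d X p →
      (∀ g ∈ ST T, ∀ l, z (l.map (mv g⁻¹)) = sg k g * z l) → ∀ l, z l ≠ 0 →
      ∀ B ∈ l, (B ∩ T).card ≤ 1 := by
    intro z hz hanti l hl B hB
    rw [Finset.card_le_one]
    intro s hs t ht
    rw [Finset.mem_inter] at hs ht
    by_contra hst
    apply hl
    apply anti_zero hanti hs.2 ht.2 hst
    intro C hC
    by_cases hBC : B = C
    · rw [← hBC]; exact ⟨fun _ => ht.1, fun _ => hs.1⟩
    · have h1 := hdis2 (hz.2 l hl).1 B hB C hC hBC
      rw [Finset.disjoint_left] at h1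
      exact ⟨fun h => absurd h (h1 hs.1), fun h => absurd h (h1 ht.1)⟩
  have hanti' : ∀ g ∈ ST T, ∀ l, z (l.map (mv g⁻¹)) = sg k g * z l := fun g hg l =>
    congrFun (hanti g hg) l
  -- step (i)
  let z2 : List (Finset α) → k := fun l => if Cov T l then z l else 0
  have hz2A : Alt z2 := hz.1.ite (Cov T) fun l₁ a b l₂ => cov_iff_perm (perm_swap l₁ a b l₂)
  have hz2 : QCh d X T p z2 := by
    refine ⟨⟨hz2A, fun l hl => ?_⟩, fun l hl => ?_⟩
    · apply hz.2
      intro h
      apply hl
      change (if Cov T l then z l else 0) = 0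
      rw [h, ite_self]
    · by_contra h
      exact hl (if_neg h)
  have hz2bd : ∀ l, bd F0 z2 l = 0 := by
    intro l
    by_cases hl : Cov T l
    · have h1 : bd F0 z2 l = bd F0 z l := by
        refine Finset.sum_congr rfl fun B hB => ?_
        refine if_pos ⟨?_, ?_⟩
        · intro t ht
          obtain ⟨C, hC, htC⟩ := hl.1 t ht
          exact ⟨C, List.mem_cons_of_mem _ hC, htC⟩
        · intro C hC
          rcases List.mem_cons.1 hC with h | h
          · have h2 : C ∩ T = ∅ := by
              rw [h]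
              ext x
              simp only [Finset.mem_inter, Finset.notMem_empty, iff_false]
              exact fun h3 => hF0T B hB x h3.2 h3.1
            rw [h2]; simp
          · exact hl.2 C h
      rw [h1]
      have h2 : bd F0 z l = bd F z l := by
        apply bd_subset hF0F
        intro B hB hB0
        by_contra h3
        obtain ⟨t, ht, htB⟩ := hmeet B hB hB0
        obtain ⟨C, hC, htC⟩ := hl.1 t ht
        exact hdis (hz.2 _ h3).1 C hC t htB htC
      rw [h2]
      exact congrFun hbd l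
    · refine Finset.sum_eq_zero fun B hB => if_neg fun h => hl ⟨?_, ?_⟩
      · intro t ht
        obtain ⟨C, hC, htC⟩ := h.1 t ht
        rcases List.mem_cons.1 hC with h1 | h1
        · rw [h1] at htC
          exact absurd htC (hF0T B hB t ht)
        · exact ⟨C, h1, htC⟩
      · exact fun C hC => h.2 C (List.mem_cons_of_mem _ hC)
  obtain ⟨w, hw, hwbd⟩ := hq1 z2 hz2 hz2bd
  -- the corrected cycle
  set w1 := altT (rho k α) T w with hw1
  have hw1Ch : w1 ∈ ChS k d X (p + 1) := ChS_altT hTX hw.1
  set z' := z - ((ST T).card : k)⁻¹ • bdL F w1 with hz'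
  have hbdCh : ∀ w, w ∈ ChS k d X (p + 1) → bdL F w ∈ ChS k d X p := by
    intro w hw
    refine ⟨hw.1.bd F, fun l hl => ?_⟩
    obtain ⟨B, _, hB⟩ := Finset.exists_ne_zero_of_sum_ne_zero hl
    have h1 := hw.2 _ hB
    rw [valid_cons] at h1
    refine ⟨h1.1.2.mono Finset.sdiff_subset, ?_⟩
    have h2 := h1.2
    rw [List.length_cons] at h2
    omega
  have hz'Ch : z' ∈ ChS k d X p :=
    Submodule.sub_mem _ hz (Submodule.smul_mem _ _ (hbdCh _ hw1Ch))
  have hz'bd : bdL F z' = 0 := by
    rw [hz', map_sub, hbd, map_smul]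
    have h1 : bdL F (bdL F w1) = 0 := by
      funext l
      exact bd_bd hw1Ch.1 F l
    rw [h1, smul_zero, sub_zero]
  have hbdw1 : bdL F w1 = altT (rho k α) T (bdL F w) := bdL_altT hTX w
  have hz'anti : ∀ g ∈ ST T, ∀ l, z' (l.map (mv g⁻¹)) = sg k g * z' l := by
    intro g hg l
    have h1 : rho k α g z' = sg k g • z' := by
      rw [hz', map_sub, hanti g hg, map_smul, hbdw1, rho_altT (rho k α) hg, smul_sub,
        smul_comm]
    exact congrFun h1 l
  have hz'cov : ∀ l, Cov T l → z' l = 0 := by
    intro l hl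
    have h1 : bdL F w1 l = (ST T).card * z l := by
      rw [hbdw1, altT_apply]
      have h2 : ∀ g ∈ ST T, sg k g * bdL F w (l.map (mv g⁻¹)) = z l := by
        intro g hg
        have hcov := cov_map (inv_mem_ST hg) hl
        have h3 : bdL F w (l.map (mv g⁻¹)) = bd F0 w (l.map (mv g⁻¹)) := by
          symm
          apply bd_subset hF0F
          intro B hB hB0
          by_contra h3
          obtain ⟨t, ht, htB⟩ := hmeet B hB hB0
          obtain ⟨C, hC, htC⟩ := hcov.1 t ht
          exact hdis (hw.1.2 _ h3).1 C hC t htB htC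
        rw [h3, hwbd]
        have h4 : z2 (l.map (mv g⁻¹)) = z (l.map (mv g⁻¹)) := if_pos hcov
        rw [h4, hanti' g hg, ← mul_assoc, sg_mul_self, one_mul]
      rw [Finset.sum_congr rfl h2, Finset.sum_const, nsmul_eq_mul]
    change z l - ((ST T).card : k)⁻¹ * bdL F w1 l = 0
    rw [h1, ← mul_assoc, inv_mul_cancel₀ hN, one_mul, sub_self]
  -- step (ii)
  obtain ⟨t, ht⟩ := hT
  let y : List (Finset α) → k := fun l => if (∀ B ∈ l, t ∉ B) then z' l else 0
  have hyA : Alt y := by
    refine hz'Ch.1.ite (fun l => ∀ B ∈ l, t ∉ B) fun l₁ a b l₂ => ?_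
    have h1 := perm_swap l₁ a b l₂
    exact ⟨fun h B hB => h B (h1.mem_iff.2 hB), fun h B hB => h B (h1.mem_iff.1 hB)⟩
  have hy0 : ∀ l, y l ≠ 0 → (∀ B ∈ l, t ∉ B) ∧ z' l ≠ 0 := by
    intro l hl
    by_cases h : ∀ B ∈ l, t ∉ B
    · refine ⟨h, ?_⟩
      have h1 : y l = z' l := if_pos h
      rwa [h1] at hl
    · exact absurd (if_neg h) hl
  have hy : QCh d (X.erase t) (T.erase t) p y := by
    refine ⟨⟨hyA, fun l hl => ?_⟩, fun l hl => ?_⟩
    · obtain ⟨h1, h2⟩ := hy0 l hl
      have h3 := hz'Ch.2 l h2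
      refine ⟨⟨fun B hB => ⟨?_, (h3.1.1 B hB).2⟩, h3.1.2⟩, h3.2⟩
      intro x hx
      rw [Finset.mem_erase]
      exact ⟨fun h => h1 B hB (h ▸ hx), (h3.1.1 B hB).1 hx⟩
    · obtain ⟨h1, h2⟩ := hy0 l hl
      constructor
      · intro s hs
        rw [Finset.mem_erase] at hs
        by_contra h3
        apply h2
        apply anti_zero hz'anti hs.2 ht hs.1
        intro B hB
        exact ⟨fun h => absurd ⟨B, hB, h⟩ h3, fun h => absurd h (h1 B hB)⟩
      · intro B hB
        refine le_trans (Finset.card_le_card ?_) (hsupp z' hz'Ch hz'anti l h2 B hB)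
        exact Finset.inter_subset_inter_left (Finset.erase_subset t T)
  have hsd : X.erase t \ T.erase t = X \ T := by
    ext x
    simp only [Finset.mem_sdiff, Finset.mem_erase]
    constructor
    · rintro ⟨⟨h1, h2⟩, h3⟩
      exact ⟨h2, fun h => h3 ⟨h1, h⟩⟩
    · rintro ⟨h1, h2⟩
      exact ⟨⟨fun h => h2 (h ▸ ht), h1⟩, fun h => h2 h.2⟩
  have hybd : ∀ l, bd ((X.erase t \ T.erase t).powersetCard d) y l = 0 := by
    intro l
    rw [hsd, ← hF0]
    by_cases hl : ∀ B ∈ l, t ∉ B
    · have h1 : bd F0 y l = bd F0 z' l := by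
        refine Finset.sum_congr rfl fun B hB => if_pos ?_
        intro C hC
        rcases List.mem_cons.1 hC with h | h
        · rw [h]; exact hF0T B hB t ht
        · exact hl C h
      rw [h1]
      by_cases hc : ∀ s ∈ T, s ≠ t → ∃ B ∈ l, s ∈ B
      · have h2 : bd F0 z' l = bd F z' l := by
          apply bd_subset hF0F
          intro B hB hB0
          by_contra h3
          obtain ⟨s, hs, hsB⟩ := hmeet B hB hB0
          have h4 := (hz'Ch.2 _ h3).1
          by_cases hst : s = t
          · apply h3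
            apply hz'cov
            refine ⟨?_, fun C hC => hsupp z' hz'Ch hz'anti _ h3 C hC⟩
            intro r hr
            by_cases hrt : r = t
            · exact ⟨B, List.mem_cons_self, by rw [hrt, ← hst]; exact hsB⟩
            · obtain ⟨C, hC, hrC⟩ := hc r hr hrt
              exact ⟨C, List.mem_cons_of_mem _ hC, hrC⟩
          · obtain ⟨C, hC, hsC⟩ := hc s hs hst
            exact hdis h4 C hC s hsB hsC
        rw [h2]
        exact congrFun hz'bd l
      · push Not at hc
        obtain ⟨s, hs, hst, hsl⟩ := hc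
        refine Finset.sum_eq_zero fun B hB => ?_
        apply anti_zero hz'anti hs ht hst
        intro C hC
        rcases List.mem_cons.1 hC with h | h
        · rw [h]
          exact ⟨fun h' => absurd h' (hF0T B hB s hs), fun h' => absurd h' (hF0T B hB t ht)⟩
        · exact ⟨fun h' => absurd h' (hsl C h), fun h' => absurd h' (hl C h)⟩
    · refine Finset.sum_eq_zero fun B _ => if_neg fun h => hl ?_
      exact fun C hC => h C (List.mem_cons_of_mem _ hC)
  obtain ⟨v, hv, hvbd⟩ := hq2 t ht y hy hybd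
  rw [hsd, ← hF0] at hvbd
  set c := ((ST T).filter fun g => g t = t).card with hc
  have hc0 : (c : k) ≠ 0 := by
    rw [Nat.cast_ne_zero]
    refine (Finset.card_pos.2 ⟨1, ?_⟩).ne'
    rw [Finset.mem_filter]
    exact ⟨one_mem_ST T, rfl⟩
  have hcs : ∀ s ∈ T, ((ST T).filter fun g => g t = s).card = c := by
    intro s hs
    refine Finset.card_nbij' (fun g => swap s t * g) (fun g => swap s t * g) ?_ ?_ ?_ ?_
    · intro g hg
      simp only [Finset.coe_filter, Set.mem_ofPred_eq] at hg ⊢
      refine ⟨mul_mem_ST (swap_mem_ST hs ht) hg.1, ?_⟩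
      rw [Perm.mul_apply, hg.2, swap_apply_left]
    · intro g hg
      simp only [Finset.coe_filter, Set.mem_ofPred_eq] at hg ⊢
      refine ⟨mul_mem_ST (swap_mem_ST hs ht) hg.1, ?_⟩
      rw [Perm.mul_apply, hg.2, swap_apply_right]
    · intro g _; simp
    · intro g _; simp
  have hvCh : v ∈ ChS k d X (p + 1) :=
    ⟨hv.1.1, fun l hl => ⟨(hv.1.2 l hl).1.mono (Finset.erase_subset t X), (hv.1.2 l hl).2⟩⟩
  have hfin : bdL F (altT (rho k α) T v) = (c : k) • z' := by
    rw [bdL_altT hTX v]
    have hsplit : bdL F v = y + (bdL F v - y) := by abel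
    set r := bdL F v - y with hr
    have hr0 : ∀ l, r l ≠ 0 → ∃ s ∈ T, s ≠ t ∧ (∀ B ∈ l, s ∉ B) ∧ ∀ B ∈ l, t ∉ B := by
      intro l hl
      have h1 : r l = ∑ B ∈ F \ F0, v (B :: l) := by
        change bd F v l - y l = _
        rw [← hvbd l]
        unfold bd
        rw [← Finset.sum_sdiff hF0F]
        ring
      rw [h1] at hl
      obtain ⟨B, hB, hB'⟩ := Finset.exists_ne_zero_of_sum_ne_zero hl
      rw [Finset.mem_sdiff] at hB
      obtain ⟨s, hs, hsB⟩ := hmeet B hB.1 hB.2
      have h2 := (hv.1.2 _ hB').1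
      have h3 := (h2.1 B List.mem_cons_self).1 hsB
      rw [Finset.mem_erase] at h3
      refine ⟨s, hs, h3.1, fun C hC => hdis h2 C hC s hsB, fun C hC htC => ?_⟩
      have h4 := (h2.1 C (List.mem_cons_of_mem _ hC)).1 htC
      rw [Finset.mem_erase] at h4
      exact h4.1 rfl
    have haltr : altT (rho k α) T r = 0 := by
      funext l
      change altT (rho k α) T r l = 0
      by_contra h1
      have h2 := h1
      rw [altT_apply] at h2
      obtain ⟨g, hg, hg'⟩ := Finset.exists_ne_zero_of_sum_ne_zero h2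
      obtain ⟨s, hs, hst, h3, h4⟩ := hr0 _ (right_ne_zero_of_mul hg')
      apply h1
      have h5 : ∀ g' ∈ ST T, ∀ l, altT (rho k α) T r (l.map (mv g'⁻¹)) =
          sg k g' * altT (rho k α) T r l := by
        intro g' hg' l
        exact congrFun (rho_altT (rho k α) hg' r) l
      apply anti_zero h5 (apply_mem_of_ST hg hs) (apply_mem_of_ST hg ht)
        (fun h => hst (g.injective h))
      intro B hB
      have h6 := h3 _ (List.mem_map_of_mem (f := mv g⁻¹) hB)
      have h7 := h4 _ (List.mem_map_of_mem (f := mv g⁻¹) hB)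
      rw [mem_mv, inv_inv] at h6 h7
      exact ⟨fun h => absurd h h6, fun h => absurd h h7⟩
    have halty : altT (rho k α) T y = (c : k) • z' := by
      funext l
      rw [altT_apply]
      have h1 : ∀ g ∈ ST T, sg k g * y (l.map (mv g⁻¹)) =
          if (∀ B ∈ l, g t ∉ B) then z' l else 0 := by
        intro g hg
        have h2 : y (l.map (mv g⁻¹)) = if (∀ B ∈ l, g t ∉ B) then z' (l.map (mv g⁻¹)) else 0 := by
          change (if (∀ B ∈ l.map (mv g⁻¹), t ∉ B) then z' (l.map (mv g⁻¹)) else 0) = _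
          refine if_congr ?_ rfl rfl
          constructor
          · intro h B hB hgB
            refine h _ (List.mem_map_of_mem (f := mv g⁻¹) hB) ?_
            rw [mem_mv, inv_inv]
            exact hgB
          · intro h B hB htB
            rw [List.mem_map] at hB
            obtain ⟨C, hC, rfl⟩ := hB
            rw [mem_mv, inv_inv] at htB
            exact h C hC htB
        rw [h2]
        split_ifs
        · rw [hz'anti g hg, ← mul_assoc, sg_mul_self, one_mul]
        · rw [mul_zero]
      rw [Finset.sum_congr rfl h1]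
      change _ = (c : k) * z' l
      by_cases hzl : z' l = 0
      · rw [hzl, mul_zero]
        exact Finset.sum_eq_zero fun g _ => by rw [ite_self]
      -- exactly one uncovered element
      have h3 : ¬ Cov T l := fun h => hzl (hz'cov l h)
      have h4 : ∃ s ∈ T, ∀ B ∈ l, s ∉ B := by
        by_contra h4
        push Not at h4
        exact h3 ⟨h4, hsupp z' hz'Ch hz'anti l hzl⟩
      obtain ⟨s, hs, hsl⟩ := h4
      have h5 : ∀ r ∈ T, (∀ B ∈ l, r ∉ B) → r = s := by
        intro r hr hrl
        by_contra hrs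
        apply hzl
        apply anti_zero hz'anti hr hs hrs
        exact fun B hB => ⟨fun h => absurd h (hrl B hB), fun h => absurd h (hsl B hB)⟩
      rw [← hcs s hs, Finset.card_filter, Nat.cast_sum, Finset.sum_mul]
      refine Finset.sum_congr rfl fun g hg => ?_
      by_cases hgs : g t = s
      · rw [if_pos hgs, if_pos (by rw [hgs]; exact hsl), Nat.cast_one, one_mul]
      · rw [if_neg hgs, if_neg, Nat.cast_zero, zero_mul]
        exact fun h => hgs (h5 _ (apply_mem_of_ST hg ht) h)
    rw [hsplit]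
    have h1 : altT (rho k α) T (y + r) = altT (rho k α) T y + altT (rho k α) T r := by
      unfold altT
      rw [← Finset.sum_add_distrib]
      refine Finset.sum_congr rfl fun g _ => ?_
      rw [map_add, smul_add]
    rw [h1, haltr, add_zero, halty]
  refine ⟨((ST T).card : k)⁻¹ • w1 + (c : k)⁻¹ • altT (rho k α) T v, ?_, ?_⟩
  · exact Submodule.add_mem _ (Submodule.smul_mem _ _ hw1Ch)
      (Submodule.smul_mem _ _ (ChS_altT hTX hvCh))
  · rw [map_add, map_smul, map_smul, hfin, smul_smul, inv_mul_cancel₀ hc0, one_smul, hz']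
    abel

end VK
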