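import Pool.Agent.VK.Lists

/-!
# The exponent model

`ECh F μ p`: alternating functions on lists of `p` exponents from `F` with sum `≤ μ`: this is the
part of multidegree `μ` of the Koszul complex of the monomials `x^b`, `b ∈ F`.
`pureExact`: exactness in large degree when the pure powers are among the generators.
-/

namespace VK

variable {k : Type*} [Field k] {σ : Type*}

/-- chains in multidegree `μ` -/
def ECh (F : Finset (σ →₀ ℕ)) (μ : σ →₀ ℕ) (p : ℕ) (z : List (σ →₀ ℕ) → k) : Prop :=
  Alt z ∧ ∀ l, z l ≠ 0 → (∀ b ∈ l, b ∈ F) ∧ l.sum ≤ μ ∧ l.length = p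

variable (k) in
/-- exactness in multidegree `μ` at `p` -/
def EEx (F : Finset (σ →₀ ℕ)) (μ : σ →₀ ℕ) (p : ℕ) : Prop :=
  ∀ z : List (σ →₀ ℕ) → k, ECh F μ p z → (∀ l, bd F z l = 0) →
    ∃ w : List (σ →₀ ℕ) → k, ECh F μ (p + 1) w ∧ ∀ l, bd F w l = z l

/-- `e_m ∧ z` -/
noncomputable def wedge (m : σ →₀ ℕ) (z : List (σ →₀ ℕ) → k) : List (σ →₀ ℕ) → k := by
  classical exact ins fun c l => if c = m then z l else 0

theorem wedge_alt {m : σ →₀ ℕ} {z : List (σ →₀ ℕ) → k} (hz : Alt z) : Alt (wedge m z) := by
  classical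
  unfold wedge
  apply Alt.ins
  intro c
  by_cases hc : c = m
  · simp only [if_pos hc]; exact hz
  · simp only [if_neg hc]; exact Alt.zero

theorem wedge_ne_zero {m : σ →₀ ℕ} {z : List (σ →₀ ℕ) → k} {l : List (σ →₀ ℕ)}
    (h : wedge m z l ≠ 0) : ∃ l₁ l₂, l = l₁ ++ m :: l₂ ∧ z (l₁ ++ l₂) ≠ 0 := by
  classical
  unfold wedge at h
  obtain ⟨l₁, c, l₂, h1, h2⟩ := ins_ne_zero h
  by_cases hc : c = m
  · rw [if_pos hc] at h2
    exact ⟨l₁, l₂, by rw [h1, hc], h2⟩
  · rw [if_neg hc] at h2
    exact absurd rfl h2

theorem bd_wedge {F : Finset (σ →₀ ℕ)} {m : σ →₀ ℕ} (hm : m ∈ F) (z : List (σ →₀ ℕ) → k)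
    (l : List (σ →₀ ℕ)) : bd F (wedge m z) l = z l - wedge m (bd F z) l := by
  classical
  unfold wedge
  rw [bd_ins]
  congr 1
  · rw [Finset.sum_eq_single m]
    · rw [if_pos rfl]
    · intro b _ hb
      rw [if_neg hb]
    · intro h
      exact absurd hm h
  · congr 1
    funext c l
    by_cases hc : c = m
    · simp only [if_pos hc]
    · simp only [if_neg hc]; exact bd_zero F l

theorem cone [CharZero k] (I : Finset σ) (d : ℕ) (F : Finset (σ →₀ ℕ))
    (hF : ∀ b, b ∈ F ↔ ∃ i ∈ I, Finsupp.single i d = b) {μ : σ →₀ ℕ} {i : σ} (hi : i ∈ I)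
    (hμ : d ≤ μ i) (p : ℕ) : EEx k F μ p := by
  classical
  intro z hz hbd
  set e : σ →₀ ℕ := Finsupp.single i d with he
  have heF : e ∈ F := (hF e).2 ⟨i, hi, rfl⟩
  have hA : Alt (wedge e z) := wedge_alt hz.1
  refine ⟨wedge e z, ⟨hA, ?_⟩, ?_⟩
  · intro l hl
    have hnd : l.Nodup := by
      by_contra h
      exact hl (hA.dup h)
    obtain ⟨l₁, l₂, rfl, h2⟩ := wedge_ne_zero hl
    have h3 := hz.2 _ h2
    have hp : (l₁ ++ e :: l₂).Perm (e :: (l₁ ++ l₂)) := List.perm_middle
    rw [hp.nodup_iff, List.nodup_cons] at hnd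
    refine ⟨?_, ?_, ?_⟩
    · intro b hb
      rw [hp.mem_iff, List.mem_cons] at hb
      rcases hb with h | h
      · rw [h]; exact heF
      · exact h3.1 b h
    · rw [hp.sum_eq, List.sum_cons]
      have h4 : (l₁ ++ l₂).sum i = 0 := by
        have h5 : ∀ l : List (σ →₀ ℕ), (∀ b ∈ l, b i = 0) → l.sum i = 0 := by
          intro l
          induction l with
          | nil => intro _; rfl
          | cons b l ih =>
            intro h
            rw [List.sum_cons, Finsupp.add_apply, h b List.mem_cons_self,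
              ih fun b hb => h b (List.mem_cons_of_mem _ hb)]
        apply h5
        intro b hb
        obtain ⟨j, hj, hjb⟩ := (hF b).1 (h3.1 b hb)
        have hji : j ≠ i := by
          intro hji
          have h6 : e = b := by rw [he, ← hji, hjb]
          apply hnd.1
          rw [h6]
          exact hb
        rw [← hjb, Finsupp.single_eq_of_ne (Ne.symm hji)]
      intro j
      rw [Finsupp.add_apply]
      by_cases hj : j = i
      · rw [hj, h4, he, Finsupp.single_eq_same]
        omega
      · rw [he, Finsupp.single_eq_of_ne hj, zero_add]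
        exact h3.2.1 j
    · rw [hp.length_eq, List.length_cons, h3.2.2]
  · intro l
    rw [bd_wedge heF]
    have h1 : bd F z = fun _ => 0 := by
      funext l; exact hbd l
    rw [h1]
    unfold wedge
    simp only [ite_self]
    rw [ins_zero, sub_zero]

theorem bd_insert_eq [DecidableEq (σ →₀ ℕ)] {F : Finset (σ →₀ ℕ)} {m : σ →₀ ℕ} (hm : m ∉ F)
    {z : List (σ →₀ ℕ) → k}
    (hz : ∀ l, z l ≠ 0 → ∀ b ∈ l, b ∈ F) (l : List (σ →₀ ℕ)) :
    bd (insert m F) z l = bd F z l := by
  unfold bd
  rw [Finset.sum_insert hm]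
  have h : z (m :: l) = 0 := by
    by_contra h
    exact hm (hz _ h m List.mem_cons_self)
  rw [h, zero_add]

theorem step [CharZero k] [DecidableEq (σ →₀ ℕ)] {F : Finset (σ →₀ ℕ)} {m : σ →₀ ℕ}
    (hm : m ∉ F) {μ : σ →₀ ℕ} {p : ℕ}
    (h1 : m ≤ μ → ∀ q, q + 1 = p → EEx k F (μ - m) q) (h2 : EEx k F μ p) :
    EEx k (insert m F) μ p := by
  intro z hz hbd
  set F' := insert m F with hF'
  have hmF' : m ∈ F' := Finset.mem_insert_self m F
  have hdup : ∀ l, m ∈ l → z (m :: l) = 0 := fun l hl =>
    hz.1.dup fun h => (List.nodup_cons.1 h).1 hl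
  -- `w1`
  have hw1 : ∃ w1 : List (σ →₀ ℕ) → k, ECh F (μ - m) p w1 ∧
      (∀ l, bd F w1 l = z (m :: l)) ∧ (¬ m ≤ μ → ∀ l, w1 l = 0) := by
    by_cases hmμ : m ≤ μ
    · cases p with
      | zero =>
        refine ⟨fun _ => 0, ⟨Alt.zero, fun l hl => absurd rfl hl⟩, ?_, fun _ _ => rfl⟩
        intro l
        rw [bd_zero]
        by_contra h
        have := (hz.2 _ (Ne.symm h)).2.2
        rw [List.length_cons] at this
        omega
      | succ q =>
        have h3 : ECh F (μ - m) q (fun l => z (m :: l)) := by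
          refine ⟨hz.1.cons m, fun l hl => ?_⟩
          have h4 := hz.2 _ hl
          refine ⟨?_, ?_, ?_⟩
          · intro b hb
            have h5 := h4.1 b (List.mem_cons_of_mem _ hb)
            rw [hF', Finset.mem_insert] at h5
            rcases h5 with h5 | h5
            · exact absurd (hdup l (h5 ▸ hb)) hl
            · exact h5
          · have h5 := h4.2.1
            rw [List.sum_cons] at h5
            exact le_tsub_of_add_le_left h5
          · have h5 := h4.2.2
            rw [List.length_cons] at h5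
            omega
        have h4 : ∀ l, bd F (fun l => z (m :: l)) l = 0 := by
          intro l
          have h5 : bd F (fun l => z (m :: l)) l = - bd F z (m :: l) := by
            unfold bd
            rw [← Finset.sum_neg_distrib]
            exact Finset.sum_congr rfl fun b _ => hz.1.head m b l
          rw [h5]
          have h6 := hbd (m :: l)
          unfold bd at h6
          rw [hF', Finset.sum_insert hm, hdup _ List.mem_cons_self, zero_add] at h6
          unfold bd
          rw [h6, neg_zero]
        obtain ⟨w1, hw1, hw1'⟩ := h1 hmμ q rfl _ h3 h4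
        exact ⟨w1, hw1, hw1', fun h => absurd hmμ h⟩
    · refine ⟨fun _ => 0, ⟨Alt.zero, fun l hl => absurd rfl hl⟩, ?_, fun _ _ => rfl⟩
      intro l
      rw [bd_zero]
      by_contra h
      have := (hz.2 _ (Ne.symm h)).2.1
      rw [List.sum_cons] at this
      exact hmμ (le_trans le_self_add this)
  obtain ⟨w1, hw1, hw1bd, hw1z⟩ := hw1
  have hbd1 : bd F' w1 = fun l => z (m :: l) := by
    funext l
    rw [hF', bd_insert_eq hm (fun l hl => (hw1.2 l hl).1), hw1bd]
  have hW : ECh F' μ (p + 1) (wedge m w1) := by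
    refine ⟨wedge_alt hw1.1, fun l hl => ?_⟩
    obtain ⟨l₁, l₂, rfl, h3⟩ := wedge_ne_zero hl
    have hmμ : m ≤ μ := by
      by_contra h
      exact h3 (hw1z h _)
    have h4 := hw1.2 _ h3
    have hp : (l₁ ++ m :: l₂).Perm (m :: (l₁ ++ l₂)) := List.perm_middle
    refine ⟨?_, ?_, ?_⟩
    · intro b hb
      rw [hp.mem_iff, List.mem_cons] at hb
      rcases hb with h | h
      · rw [h]; exact hmF'
      · exact Finset.mem_insert_of_mem (h4.1 b h)
    · rw [hp.sum_eq, List.sum_cons]
      have h5 := add_le_add_right h4.2.1 m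
      rwa [add_tsub_cancel_of_le hmμ] at h5
    · rw [hp.length_eq, List.length_cons, h4.2.2]
  -- the reduced cycle `u`
  let u : List (σ →₀ ℕ) → k := fun l => (if m ∈ l then 0 else z l) + w1 l
  have hdec : ∀ l, z l + bd F' (wedge m w1) l = u l := by
    intro l
    rw [bd_wedge hmF', hbd1]
    have h3 : wedge m (fun l => z (m :: l)) l = if m ∈ l then z l else 0 := by
      classical
      have hzm : Alt (fun l => if m ∈ l then z l else 0) :=
        hz.1.ite (fun l => m ∈ l) fun l₁ a b l₂ => (perm_swap l₁ a b l₂).mem_iff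
      have h4 := ins_marked (fun c => c = m) hzm (fun l hl => ?_) l
      · rw [← h4]
        unfold wedge
        congr 1
        funext c l
        by_cases hc : c = m
        · rw [if_pos hc, if_pos hc, hc, if_pos List.mem_cons_self]
        · rw [if_neg hc, if_neg hc]
      · have h5 : m ∈ l := by
          by_contra h
          exact hl (if_neg h)
        have h6 : l.Nodup := by
          by_contra h
          exact hl (hzm.dup h)
        have h7 := List.count_eq_one_of_mem h6 h5
        rw [← h7, List.count]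
        refine List.countP_congr fun b _ => ?_
        simp
    rw [h3]
    change _ = (if m ∈ l then 0 else z l) + w1 l
    split_ifs <;> ring
  have hu : ECh F μ p u := by
    refine ⟨?_, ?_⟩
    · have h3 : Alt (fun l => if m ∈ l then 0 else z l) := by
        have h4 : (fun l => if m ∈ l then 0 else z l) = fun l => if ¬ m ∈ l then z l else 0 := by
          funext l
          split_ifs <;> rfl
        rw [h4]
        exact hz.1.ite (fun l => ¬ m ∈ l) fun l₁ a b l₂ =>
          not_congr (perm_swap l₁ a b l₂).mem_iff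
      exact h3.add hw1.1
    · intro l hl
      by_cases h3 : w1 l = 0
      · have h4 : (if m ∈ l then 0 else z l) ≠ 0 := by
          intro h5
          apply hl
          change (if m ∈ l then 0 else z l) + w1 l = 0
          rw [h5, h3, add_zero]
        have h5 : m ∉ l := fun h => h4 (if_pos h)
        rw [if_neg h5] at h4
        have h6 := hz.2 l h4
        refine ⟨fun b hb => ?_, h6.2⟩
        have h7 := h6.1 b hb
        rw [hF', Finset.mem_insert] at h7
        rcases h7 with h7 | h7
        · exact absurd (h7 ▸ hb) h5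
        · exact h7
      · have h4 := hw1.2 l h3
        exact ⟨h4.1, h4.2.1.trans tsub_le_self, h4.2.2⟩
  have hubd : ∀ l, bd F u l = 0 := by
    intro l
    rw [← bd_insert_eq hm (fun l hl => (hu.2 l hl).1), ← hF']
    have h3 : u = fun l => z l + bd F' (wedge m w1) l := by
      funext l; exact (hdec l).symm
    rw [h3, bd_add, hbd, bd_bd hW.1, add_zero]
  obtain ⟨w0, hw0, hw0bd⟩ := h2 u hu hubd
  refine ⟨fun l => w0 l - wedge m w1 l, ⟨hw0.1.sub hW.1, ?_⟩, ?_⟩
  · intro l hl
    by_cases h3 : w0 l = 0
    · apply hW.2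
      intro h4
      apply hl
      change w0 l - wedge m w1 l = 0
      rw [h3, h4, sub_zero]
    · have h4 := hw0.2 l h3
      exact ⟨fun b hb => Finset.mem_insert_of_mem (h4.1 b hb), h4.2⟩
  · intro l
    rw [bd_sub, hF', bd_insert_eq hm (fun l hl => (hw0.2 l hl).1), hw0bd, ← hdec l, ← hF']
    ring

theorem pureExact [CharZero k] (I : Finset σ) (d : ℕ) (F : Finset (σ →₀ ℕ))
    (hF : ∀ i ∈ I, Finsupp.single i d ∈ F) (hdeg : ∀ b ∈ F, b.degree = d) (p : ℕ) (μ : σ →₀ ℕ)
    (hμ : μ.support ⊆ I) (hp : p * d + I.card * (d - 1) < μ.degree) : EEx k F μ p := by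
  classical
  set F0 := I.image fun i => Finsupp.single i d with hF0
  have key : ∀ E : Finset (σ →₀ ℕ), (∀ b ∈ E, b.degree = d) → ∀ (p : ℕ) (μ : σ →₀ ℕ),
      μ.support ⊆ I → p * d + I.card * (d - 1) < μ.degree → EEx k (F0 ∪ E) μ p := by
    intro E
    induction E using Finset.induction with
    | empty =>
      intro _ p μ hμ hp
      rw [Finset.union_empty]
      have h1 : ∃ i ∈ I, d ≤ μ i := by
        by_contra h
        push Not at h
        have h2 : μ.degree ≤ I.card * (d - 1) := by
          rw [Finsupp.degree_apply, ← smul_eq_mul]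
          refine le_trans (Finset.sum_le_sum_of_subset hμ) ?_
          exact Finset.sum_le_card_nsmul _ _ _ fun i hi => by have := h i hi; omega
        omega
      obtain ⟨i, hi, hdi⟩ := h1
      exact cone I d F0 (fun b => by rw [hF0, Finset.mem_image]) hi hdi p
    | insert m E hmE ih =>
      intro hE p μ hμ hp
      have hE' : ∀ b ∈ E, b.degree = d := fun b hb => hE b (Finset.mem_insert_of_mem hb)
      rw [Finset.union_insert]
      by_cases hm : m ∈ F0 ∪ E
      · rw [Finset.insert_eq_of_mem hm]
        exact ih hE' p μ hμ hp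
      · apply step hm
        · intro hmμ q hq
          have h1 : (μ - m).degree + d = μ.degree := by
            rw [← hE m (Finset.mem_insert_self m E), ← map_add, tsub_add_cancel_of_le hmμ]
          apply ih hE'
          · exact (Finsupp.support_tsub).trans hμ
          · subst hq
            have h2 : (q + 1) * d = q * d + d := by ring
            omega
        · exact ih hE' p μ hμ hp
  have h1 : F0 ∪ F = F := by
    apply Finset.union_eq_right.2
    intro b hb
    rw [hF0, Finset.mem_image] at hb
    obtain ⟨i, hi, rfl⟩ := hb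
    exact hF i hi
  rw [← h1]
  exact key F hdeg p μ hμ hp

end VK
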