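import Mathlib

/-!
# Koszul cohomology of Veronese embeddings: definitions

For a commutative complex algebra `S` and a subspace `V` of `S`, the Koszul complex `⋀ V ⊗ S` is
realised as the exterior algebra of the free `S`-module `S ⊗ V`, with differential the contraction
by the multiplication map `S ⊗ V → S`.
-/

open TensorProduct

namespace VK

section General

variable {S : Type} [CommRing S] {M : Type} [AddCommGroup M] [Module S M] {V : Type}

/-- the contraction by a linear form `f` on the exterior algebra of the `S`-module `M`: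
`m_1 ∧ … ∧ m_p ↦ ∑ (-1)^(i-1) f(m_i) • (m_1 ∧ … m_i left out … ∧ m_p)` -/
noncomputable def ctr (f : M →ₗ[S] S) : ExteriorAlgebra S M →ₗ[S] ExteriorAlgebra S M :=
  CliffordAlgebra.contractLeft (Q := (0 : QuadraticForm S M)) f

variable (S) in
/-- the product `m_1 ∧ … ∧ m_p` -/
noncomputable def wdg {p : ℕ} (m : Fin p → M) : ExteriorAlgebra S M :=
  ExteriorAlgebra.ιMulti S p m

/-- all finite sums of elements `s • (φ v_1 ∧ … ∧ φ v_p)` with `s ∈ A` and `v_i ∈ V` -/
noncomputable def wedgeSpan (φ : V → M) (A : Set S) (p : ℕ) : AddSubgroup (ExteriorAlgebra S M) :=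
  AddSubgroup.closure {x | ∃ s ∈ A, ∃ v : Fin p → V, x = s • wdg S fun i => φ (v i)}

/-- the cycles: the elements of `wedgeSpan φ A p` killed by the contraction -/
noncomputable def cycles (f : M →ₗ[S] S) (φ : V → M) (A : Set S) (p : ℕ) :
    AddSubgroup (ExteriorAlgebra S M) :=
  wedgeSpan φ A p ⊓ (ctr f).toAddMonoidHom.ker

/-- the boundaries: the image of `wedgeSpan φ B (p + 1)` under the contraction -/
noncomputable def boundaries (f : M →ₗ[S] S) (φ : V → M) (B : Set S) (p : ℕ) :
    AddSubgroup (ExteriorAlgebra S M) :=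
  (wedgeSpan φ B (p + 1)).map (ctr f).toAddMonoidHom

/-- cycles modulo boundaries -/
def Homology (f : M →ₗ[S] S) (φ : V → M) (A B : Set S) (p : ℕ) : Type :=
  cycles f φ A p ⧸ (boundaries f φ B p).addSubgroupOf (cycles f φ A p)

end General

/-- the multiplication map `S ⊗ V → S`, `s ⊗ v ↦ s v` -/
noncomputable def mulMap {S : Type} [CommRing S] [Algebra ℂ S] (V : Submodule ℂ S) :
    S ⊗[ℂ] V →ₗ[S] S :=
  LinearMap.liftBaseChange S V.subtype

/-- the homology of `⋀^(p+1) V ⊗ B → ⋀^p V ⊗ A → ⋀^(p-1) V ⊗ S`, for subspaces `V, A, B` of `S`;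
here `⋀ V ⊗ S` is the exterior algebra of the `S`-module `S ⊗ V` and the differential is the
contraction by the multiplication map `S ⊗ V → S` -/
def KoszulHomology {S : Type} [CommRing S] [Algebra ℂ S] (V A B : Submodule ℂ S) (p : ℕ) :
    Type :=
  Homology (mulMap V) (fun v : V => (1 : S) ⊗ₜ[ℂ] v) (A : Set S) (B : Set S) p

/-- the graded piece `S_m` of `S = ℂ[x_0, …, x_n]` for an integer `m`, zero for negative `m` -/
noncomputable def piece (n : ℕ) (m : ℤ) : Submodule ℂ (MvPolynomial (Fin (n + 1)) ℂ) :=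
  if 0 ≤ m then MvPolynomial.homogeneousSubmodule (Fin (n + 1)) ℂ m.toNat else ⊥

/-- the Koszul cohomology group `K_{p,q}(ℙ^n, b; d)`: with `V = S_d`, the homology of
`⋀^(p+1) V ⊗ S_((q-1)d+b) → ⋀^p V ⊗ S_(qd+b) → ⋀^(p-1) V ⊗ S_((q+1)d+b)` -/
def KoszulCohomology (n : ℕ) (b : ℤ) (d p : ℕ) (q : ℤ) : Type :=
  KoszulHomology (piece n d) (piece n (q * d + b)) (piece n ((q - 1) * d + b)) p

end VK
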