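import Pool.Agent.VK.Lists
import Pool.Agent.VK.KoszulDef

/-!
# The Koszul complex in an exterior algebra and alternating functions on lists

`Psi l x`: the coefficient of `x` at the list `l`, obtained by repeated contraction;
`Theta p z = ∑ e_{b_1} ∧ … ∧ e_{b_p} z(b_1, …, b_p)`.
-/

namespace VK

variable {S : Type} [CommRing S] {M : Type} [AddCommGroup M] [Module S M] {β : Type*}

theorem ctr_mul (f : M →ₗ[S] S) (a : M) (x : ExteriorAlgebra S M) :
    ctr f (ExteriorAlgebra.ι S a * x) = f a • x - ExteriorAlgebra.ι S a * ctr f x :=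
  CliffordAlgebra.contractLeft_ι_mul f a x

theorem ctr_comm (f g : M →ₗ[S] S) (x : ExteriorAlgebra S M) :
    ctr f (ctr g x) = - ctr g (ctr f x) :=
  CliffordAlgebra.contractLeft_comm f g x

theorem ctr_algebraMap (f : M →ₗ[S] S) (s : S) :
    ctr f (algebraMap S (ExteriorAlgebra S M) s) = 0 :=
  CliffordAlgebra.contractLeft_algebraMap _ f s

theorem ctr_one (f : M →ₗ[S] S) : ctr f (1 : ExteriorAlgebra S M) = 0 :=
  CliffordAlgebra.contractLeft_one _ f

theorem ctr_sum (F : Finset β) (X : β → S) (f : β → M →ₗ[S] S) (x : ExteriorAlgebra S M) :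
    ctr (∑ b ∈ F, X b • f b) x = ∑ b ∈ F, X b • ctr (f b) x := by
  unfold ctr
  rw [map_sum, LinearMap.sum_apply]
  refine Finset.sum_congr rfl fun b _ => ?_
  rw [map_smul]
  rfl

theorem ctr_zero (x : ExteriorAlgebra S M) : ctr (0 : M →ₗ[S] S) x = 0 := by
  unfold ctr
  rw [map_zero]
  rfl

/-- the coefficient of `x` at a list -/
noncomputable def Psi (f : β → M →ₗ[S] S) : List β → ExteriorAlgebra S M →ₗ[S] S
  | [] => (ExteriorAlgebra.algebraMapInv (R := S) (M := M)).toLinearMap
  | b :: l => (Psi f l).comp (ctr (f b))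

theorem Psi_cons (f : β → M →ₗ[S] S) (b : β) (l : List β) (x : ExteriorAlgebra S M) :
    Psi f (b :: l) x = Psi f l (ctr (f b) x) := by
  rw [Psi]
  rfl

theorem Psi_nil (f : β → M →ₗ[S] S) (x : ExteriorAlgebra S M) :
    Psi f [] x = ExteriorAlgebra.algebraMapInv x := by
  rw [Psi]
  rfl

theorem Psi_alt (f : β → M →ₗ[S] S) (x : ExteriorAlgebra S M) : Alt fun l => Psi f l x := by
  intro l₁
  induction l₁ generalizing x with
  | nil =>
    intro a b l₂
    simp only [List.nil_append, Psi_cons]
    rw [ctr_comm, map_neg]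
  | cons c l₁ ih =>
    intro a b l₂
    simp only [List.cons_append, Psi_cons]
    exact ih (ctr (f c) x) a b l₂

theorem Psi_ctr (F : Finset β) (X : β → S) (f : β → M →ₗ[S] S) (x : ExteriorAlgebra S M)
    (l : List β) : Psi f l (ctr (∑ b ∈ F, X b • f b) x) = ∑ b ∈ F, X b * Psi f (b :: l) x := by
  rw [ctr_sum, map_sum]
  refine Finset.sum_congr rfl fun b _ => ?_
  rw [map_smul, Psi_cons, smul_eq_mul]

theorem Psi_mem_F {F : Finset β} {f : β → M →ₗ[S] S} (hf : ∀ b, b ∉ F → f b = 0) :
    ∀ (l : List β) (x : ExteriorAlgebra S M), Psi f l x ≠ 0 → ∀ b ∈ l, b ∈ F := by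
  intro l
  induction l with
  | nil => exact fun x _ b hb => absurd hb List.not_mem_nil
  | cons c l ih =>
    intro x hx b hb
    rw [Psi_cons] at hx
    rcases List.mem_cons.1 hb with h | h
    · rw [h]
      by_contra hc
      apply hx
      rw [hf c hc, ctr_zero, map_zero]
    · exact ih _ hx b h

/-- `∑ e_{b_1} ∧ … ∧ e_{b_p} z(b_1, …, b_p)` -/
noncomputable def Theta (F : Finset β) (e : β → M) : ℕ → (List β → S) → ExteriorAlgebra S M
  | 0, z => algebraMap S _ (z [])
  | p + 1, z => ∑ b ∈ F, ExteriorAlgebra.ι S (e b) * Theta F e p (fun l => z (b :: l))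

theorem Theta_zero (F : Finset β) (e : β → M) (z : List β → S) :
    Theta F e 0 z = algebraMap S _ (z []) := by rw [Theta]

theorem Theta_succ (F : Finset β) (e : β → M) (p : ℕ) (z : List β → S) :
    Theta F e (p + 1) z =
      ∑ b ∈ F, ExteriorAlgebra.ι S (e b) * Theta F e p (fun l => z (b :: l)) := by
  rw [Theta]

theorem Theta_sum (F : Finset β) (e : β → M) {γ : Type*} (G : Finset γ) (a : γ → S) :
    ∀ (p : ℕ) (z : γ → List β → S), Theta F e p (fun l => ∑ i ∈ G, a i * z i l) =
      ∑ i ∈ G, a i • Theta F e p (z i) := by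
  intro p
  induction p with
  | zero =>
    intro z
    simp only [Theta_zero]
    rw [map_sum]
    refine Finset.sum_congr rfl fun i _ => ?_
    rw [map_mul, Algebra.smul_def]
  | succ p ih =>
    intro z
    simp only [Theta_succ]
    have h1 : ∀ b ∈ F, ExteriorAlgebra.ι S (e b) *
        Theta F e p (fun l => ∑ i ∈ G, a i * z i (b :: l)) =
        ∑ i ∈ G, a i • (ExteriorAlgebra.ι S (e b) * Theta F e p (fun l => z i (b :: l))) := by
      intro b _
      rw [ih (fun i l => z i (b :: l)), Finset.mul_sum]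
      refine Finset.sum_congr rfl fun i _ => ?_
      rw [mul_smul_comm]
    rw [Finset.sum_congr rfl h1, Finset.sum_comm]
    refine Finset.sum_congr rfl fun i _ => ?_
    rw [Finset.smul_sum]

theorem Theta_neg (F : Finset β) (e : β → M) (p : ℕ) (z : List β → S) :
    Theta F e p (fun l => - z l) = - Theta F e p z := by
  have h := Theta_sum F e ({()} : Finset Unit) (fun _ => (-1 : S)) p (fun _ => z)
  simpa using h

/-- the boundary of `Theta` -/
theorem ctr_Theta {F : Finset β} {e : β → M} {φ : M →ₗ[S] S} {X : β → S}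
    (hX : ∀ b ∈ F, φ (e b) = X b) : ∀ (p : ℕ) (z : List β → S), Alt z →
    ctr φ (Theta F e (p + 1) z) =
      ((p + 1 : ℕ) : S) • Theta F e p (fun l => ∑ b ∈ F, X b * z (b :: l)) := by
  intro p
  induction p with
  | zero =>
    intro z _
    rw [Theta_succ, map_sum, Theta_sum]
    rw [Nat.zero_add, Nat.cast_one, one_smul]
    refine Finset.sum_congr rfl fun b hb => ?_
    rw [ctr_mul, Theta_zero, ctr_algebraMap, mul_zero, sub_zero, hX b hb]
  | succ p ih =>
    intro z hz
    rw [Theta_succ, map_sum]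
    have h1 : ∀ b ∈ F, ctr φ (ExteriorAlgebra.ι S (e b) *
        Theta F e (p + 1) (fun l => z (b :: l))) =
        X b • Theta F e (p + 1) (fun l => z (b :: l)) + ((p + 1 : ℕ) : S) •
          (ExteriorAlgebra.ι S (e b) * Theta F e p
            (fun l => ∑ c ∈ F, X c * z (c :: b :: l))) := by
      intro b hb
      rw [ctr_mul, hX b hb, ih _ (hz.cons b), sub_eq_add_neg]
      congr 1
      rw [mul_smul_comm, ← smul_neg, ← mul_neg, ← Theta_neg]
      congr 3
      funext l
      rw [← Finset.sum_neg_distrib]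
      refine Finset.sum_congr rfl fun c _ => ?_
      rw [hz.head c b l]
      ring
    rw [Finset.sum_congr rfl h1, Finset.sum_add_distrib, ← Theta_sum F e F X (p + 1)
      (fun b l => z (b :: l)), ← Finset.smul_sum]
    have h2 : ∑ b ∈ F, ExteriorAlgebra.ι S (e b) * Theta F e p
        (fun l => ∑ c ∈ F, X c * z (c :: b :: l)) =
        Theta F e (p + 1) (fun l => ∑ b ∈ F, X b * z (b :: l)) := by
      rw [Theta_succ]
    rw [h2]
    push_cast
    simp only [add_smul, one_smul]
    abel

/-- the `S`-span of the `p`-fold products -/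
noncomputable def Ep (S : Type) [CommRing S] (M : Type) [AddCommGroup M] [Module S M] (p : ℕ) :
    Submodule S (ExteriorAlgebra S M) :=
  Submodule.span S (Set.range (ExteriorAlgebra.ιMulti S p))

theorem mul_mem_Ep (a : M) {p : ℕ} {x : ExteriorAlgebra S M} (hx : x ∈ Ep S M p) :
    ExteriorAlgebra.ι S a * x ∈ Ep S M (p + 1) := by
  induction hx using Submodule.span_induction with
  | mem x h =>
    obtain ⟨w, rfl⟩ := h
    apply Submodule.subset_span
    refine ⟨Matrix.vecCons a w, ?_⟩
    rw [ExteriorAlgebra.ιMulti_succ_apply]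
    simp
  | zero => rw [mul_zero]; exact Submodule.zero_mem _
  | add x y _ _ hx hy => rw [mul_add]; exact Submodule.add_mem _ hx hy
  | smul c x _ hx => rw [mul_smul_comm]; exact Submodule.smul_mem _ _ hx

theorem ctr_mem_Ep (f : M →ₗ[S] S) : ∀ {p : ℕ} {x : ExteriorAlgebra S M}, x ∈ Ep S M (p + 1) →
    ctr f x ∈ Ep S M p := by
  intro p
  induction p with
  | zero =>
    intro x hx
    induction hx using Submodule.span_induction with
    | mem x h =>
      obtain ⟨w, rfl⟩ := h
      rw [ExteriorAlgebra.ιMulti_succ_apply, ctr_mul, ExteriorAlgebra.ιMulti_zero_apply, ctr_one,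
        mul_zero, sub_zero]
      apply Submodule.smul_mem
      apply Submodule.subset_span
      exact ⟨fun i => Fin.elim0 i, ExteriorAlgebra.ιMulti_zero_apply _⟩
    | zero => rw [map_zero]; exact Submodule.zero_mem _
    | add x y _ _ hx hy => rw [map_add]; exact Submodule.add_mem _ hx hy
    | smul c x _ hx => rw [map_smul]; exact Submodule.smul_mem _ _ hx
  | succ p ih =>
    intro x hx
    induction hx using Submodule.span_induction with
    | mem x h =>
      obtain ⟨w, rfl⟩ := h
      rw [ExteriorAlgebra.ιMulti_succ_apply, ctr_mul]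
      have h1 : ExteriorAlgebra.ιMulti S (p + 1) (Matrix.vecTail w) ∈ Ep S M (p + 1) :=
        Submodule.subset_span ⟨_, rfl⟩
      exact Submodule.sub_mem _ (Submodule.smul_mem _ _ h1) (mul_mem_Ep _ (ih h1))
    | zero => rw [map_zero]; exact Submodule.zero_mem _
    | add x y _ _ hx hy => rw [map_add]; exact Submodule.add_mem _ hx hy
    | smul c x _ hx => rw [map_smul]; exact Submodule.smul_mem _ _ hx

theorem Ep_zero {x : ExteriorAlgebra S M} (hx : x ∈ Ep S M 0) :
    ∃ s : S, x = algebraMap S _ s := by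
  induction hx using Submodule.span_induction with
  | mem x h =>
    obtain ⟨w, rfl⟩ := h
    exact ⟨1, by rw [ExteriorAlgebra.ιMulti_zero_apply, map_one]⟩
  | zero => exact ⟨0, by rw [map_zero]⟩
  | add x y _ _ hx hy =>
    obtain ⟨s, rfl⟩ := hx
    obtain ⟨t, rfl⟩ := hy
    exact ⟨s + t, by rw [map_add]⟩
  | smul c x _ hx =>
    obtain ⟨s, rfl⟩ := hx
    exact ⟨c * s, by rw [map_mul, Algebra.smul_def]⟩

/-- Euler's identity -/
theorem euler {F : Finset β} {e : β → M} {f : β → M →ₗ[S] S}
    (hid : ∀ m, ∑ b ∈ F, f b m • e b = m) {p : ℕ} {x : ExteriorAlgebra S M}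
    (hx : x ∈ Ep S M p) :
    ∑ b ∈ F, ExteriorAlgebra.ι S (e b) * ctr (f b) x = (p : S) • x := by
  have key : ∀ (p : ℕ) (w : Fin p → M), ∑ b ∈ F, ExteriorAlgebra.ι S (e b) *
      ctr (f b) (ExteriorAlgebra.ιMulti S p w) = (p : S) • ExteriorAlgebra.ιMulti S p w := by
    intro p
    induction p with
    | zero =>
      intro w
      rw [ExteriorAlgebra.ιMulti_zero_apply, Nat.cast_zero, zero_smul]
      exact Finset.sum_eq_zero fun b _ => by rw [ctr_one, mul_zero]
    | succ p ih =>
      intro w
      rw [ExteriorAlgebra.ιMulti_succ_apply]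
      set y := ExteriorAlgebra.ιMulti S p (Matrix.vecTail w) with hy
      have h1 : ∀ b ∈ F, ExteriorAlgebra.ι S (e b) *
          ctr (f b) (ExteriorAlgebra.ι S (w 0) * y) =
          ExteriorAlgebra.ι S (f b (w 0) • e b) * y +
            ExteriorAlgebra.ι S (w 0) * (ExteriorAlgebra.ι S (e b) * ctr (f b) y) := by
        intro b _
        rw [ctr_mul, mul_sub, mul_smul_comm, map_smul, smul_mul_assoc, sub_eq_add_neg]
        congr 1
        rw [← mul_assoc, ← mul_assoc, ← neg_mul]
        congr 1
        exact (eq_neg_of_add_eq_zero_left (ExteriorAlgebra.ι_add_mul_swap (w 0) (e b))).symm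
      rw [Finset.sum_congr rfl h1, Finset.sum_add_distrib, ← Finset.sum_mul, ← map_sum, hid,
        ← Finset.mul_sum, ih, mul_smul_comm, Nat.cast_add, Nat.cast_one, add_smul, one_smul,
        add_comm]
  induction hx using Submodule.span_induction with
  | mem x h =>
    obtain ⟨w, rfl⟩ := h
    exact key p w
  | zero => simp
  | add x y _ _ hx hy =>
    simp only [map_add, mul_add, Finset.sum_add_distrib, smul_add]
    rw [hx, hy]
  | smul c x _ hx =>
    simp only [map_smul, mul_smul_comm]
    rw [← Finset.smul_sum, hx, smul_comm]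

theorem Theta_Psi {F : Finset β} {e : β → M} {f : β → M →ₗ[S] S}
    (hid : ∀ m, ∑ b ∈ F, f b m • e b = m) : ∀ (p : ℕ) {x : ExteriorAlgebra S M},
    x ∈ Ep S M p → Theta F e p (fun l => Psi f l x) = ((p.factorial : ℕ) : S) • x := by
  intro p
  induction p with
  | zero =>
    intro x hx
    obtain ⟨s, rfl⟩ := Ep_zero hx
    rw [Theta_zero, Psi_nil, ExteriorAlgebra.algebraMap_leftInverse M s, Nat.factorial_zero,
      Nat.cast_one, one_smul]
  | succ p ih =>
    intro x hx
    rw [Theta_succ]
    have h1 : ∀ b ∈ F, ExteriorAlgebra.ι S (e b) * Theta F e p (fun l => Psi f (b :: l) x) =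
        ((p.factorial : ℕ) : S) • (ExteriorAlgebra.ι S (e b) * ctr (f b) x) := by
      intro b _
      simp only [Psi_cons]
      rw [ih (ctr_mem_Ep (f b) hx), mul_smul_comm]
    rw [Finset.sum_congr rfl h1, ← Finset.smul_sum, euler hid hx, smul_smul,
      Nat.factorial_succ, Nat.cast_mul, mul_comm]

end VK
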