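import Pool.Agent.VK.Main
import Pool.Agent.VK.ExtAlg
import Pool.Agent.VK.KoszulDef

/-!
# From exactness in the exponent model to vanishing of Koszul cohomology
-/

open TensorProduct

namespace VK

/-- the polynomial ring -/
abbrev PolyS (n : ℕ) : Type := MvPolynomial (Fin (n + 1)) ℂ

/-- the forms of degree `d` -/
abbrev Forms (n d : ℕ) : Type := piece n (d : ℤ)

variable {n d : ℕ}

theorem mem_piece_nat {a : ℕ} {s : PolyS n} : s ∈ piece n (a : ℤ) ↔ s.IsHomogeneous a := by
  unfold piece
  rw [if_pos (Int.natCast_nonneg a), Int.toNat_natCast, MvPolynomial.mem_homogeneousSubmodule]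

/-- the exponents of degree `d` -/
noncomputable def FF (n d : ℕ) : Finset (Fin (n + 1) →₀ ℕ) :=
  Finset.finsuppAntidiag Finset.univ d

theorem mem_FF {b : Fin (n + 1) →₀ ℕ} : b ∈ FF n d ↔ b.degree = d := by
  unfold FF
  rw [Finset.mem_finsuppAntidiag, Finsupp.degree_eq_sum]
  exact ⟨fun h => h.1, fun h => ⟨h, Finset.subset_univ _⟩⟩

open Classical in
/-- the monomial `x^b` as a form of degree `d` -/
noncomputable def mon (n d : ℕ) (b : Fin (n + 1) →₀ ℕ) : Forms n d :=
  if h : b.degree = d then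
    ⟨MvPolynomial.monomial b 1, mem_piece_nat.2 (MvPolynomial.isHomogeneous_monomial 1 h)⟩
  else 0

theorem mon_coe {b : Fin (n + 1) →₀ ℕ} (h : b ∈ FF n d) :
    ((mon n d b : Forms n d) : PolyS n) = MvPolynomial.monomial b 1 := by
  unfold mon
  rw [dif_pos (mem_FF.1 h)]

/-- the coefficient functional of `x^b` -/
noncomputable def dual (n d : ℕ) (b : Fin (n + 1) →₀ ℕ) :
    PolyS n ⊗[ℂ] Forms n d →ₗ[PolyS n] PolyS n :=
  LinearMap.liftBaseChange (PolyS n)
    ((Algebra.linearMap ℂ (PolyS n)).comp ((MvPolynomial.lcoeff ℂ b).comp (Submodule.subtype _)))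

theorem dual_tmul (b : Fin (n + 1) →₀ ℕ) (s : PolyS n) (v : Forms n d) :
    dual n d b (s ⊗ₜ v) = s * MvPolynomial.C (MvPolynomial.coeff b (v : PolyS n)) := by
  unfold dual
  rw [LinearMap.liftBaseChange_tmul]
  rfl

theorem mulMap_tmul (s : PolyS n) (v : Forms n d) :
    mulMap (piece n (d : ℤ)) (s ⊗ₜ v) = s * (v : PolyS n) := by
  unfold mulMap
  rw [LinearMap.liftBaseChange_tmul]
  rfl

theorem form_eq (v : Forms n d) : (v : PolyS n) =
    ∑ b ∈ FF n d, MvPolynomial.monomial b (MvPolynomial.coeff b (v : PolyS n)) := by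
  conv_lhs => rw [← MvPolynomial.support_sum_monomial_coeff (v : PolyS n)]
  apply Finset.sum_subset
  · intro b hb
    rw [mem_FF]
    by_contra h
    rw [MvPolynomial.mem_support_iff] at hb
    exact hb ((mem_piece_nat.1 v.2).coeff_eq_zero h)
  · intro b _ hb
    rw [MvPolynomial.notMem_support_iff.1 hb, map_zero]

theorem mulMap_eq : mulMap (piece n (d : ℤ)) =
    ∑ b ∈ FF n d, (MvPolynomial.monomial b (1 : ℂ)) • dual n d b := by
  apply TensorProduct.AlgebraTensorModule.ext
  intro s v
  rw [mulMap_tmul, LinearMap.sum_apply]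
  conv_lhs => rw [form_eq v, Finset.mul_sum]
  refine Finset.sum_congr rfl fun b _ => ?_
  rw [LinearMap.smul_apply, dual_tmul, smul_eq_mul, mul_left_comm,
    mul_comm (MvPolynomial.monomial b (1 : ℂ)), MvPolynomial.C_mul_monomial, mul_one]

theorem sum_dual (m : PolyS n ⊗[ℂ] Forms n d) :
    ∑ b ∈ FF n d, dual n d b m • ((1 : PolyS n) ⊗ₜ[ℂ] mon n d b) = m := by
  induction m using TensorProduct.induction_on with
  | zero => simp
  | add x y hx hy =>
    simp only [map_add, add_smul, Finset.sum_add_distrib]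
    rw [hx, hy]
  | tmul s v =>
    have h1 : ∀ b ∈ FF n d, dual n d b (s ⊗ₜ v) • ((1 : PolyS n) ⊗ₜ[ℂ] mon n d b) =
        s ⊗ₜ[ℂ] ((MvPolynomial.coeff b (v : PolyS n)) • mon n d b) := by
      intro b _
      rw [dual_tmul, TensorProduct.smul_tmul', smul_eq_mul, mul_one, mul_comm,
        ← MvPolynomial.smul_eq_C_mul, TensorProduct.smul_tmul]
    rw [Finset.sum_congr rfl h1, ← TensorProduct.tmul_sum]
    congr 1
    apply Subtype.ext
    rw [Submodule.coe_sum]
    conv_rhs => rw [form_eq v]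
    refine Finset.sum_congr rfl fun b hb => ?_
    rw [Submodule.coe_smul, mon_coe hb, MvPolynomial.smul_monomial, smul_eq_mul, mul_one]

theorem dual_zero {b : Fin (n + 1) →₀ ℕ} (hb : b ∉ FF n d) : dual n d b = 0 := by
  apply TensorProduct.AlgebraTensorModule.ext
  intro s v
  rw [dual_tmul]
  have h : MvPolynomial.coeff b (v : PolyS n) = 0 :=
    (mem_piece_nat.1 v.2).coeff_eq_zero fun h => hb (mem_FF.2 h)
  rw [h, map_zero, mul_zero]
  rfl

theorem mulMap_mon {b : Fin (n + 1) →₀ ℕ} (hb : b ∈ FF n d) :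
    mulMap (piece n (d : ℤ)) ((1 : PolyS n) ⊗ₜ[ℂ] mon n d b) = MvPolynomial.monomial b 1 := by
  rw [mulMap_tmul, one_mul, mon_coe hb]

theorem piece_mul {m : ℤ} {s : PolyS n} (hs : s ∈ piece n m) (c : ℂ) :
    s * MvPolynomial.C c ∈ piece n m := by
  rw [mul_comm, ← MvPolynomial.smul_eq_C_mul]
  exact Submodule.smul_mem _ _ hs

/-- `⋀^p V ⊗ S_m` -/
noncomputable abbrev chains (n d p : ℕ) (m : ℤ) :
    AddSubgroup (ExteriorAlgebra (PolyS n) (PolyS n ⊗[ℂ] Forms n d)) :=
  wedgeSpan (fun v : Forms n d => (1 : PolyS n) ⊗ₜ[ℂ] v) (piece n m : Set (PolyS n)) p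

/-- the ambient algebra -/
abbrev KosAlg (n d : ℕ) : Type := ExteriorAlgebra (PolyS n) (PolyS n ⊗[ℂ] Forms n d)

theorem mul_mem_chains {p : ℕ} {m : ℤ} (v : Forms n d) {x : KosAlg n d}
    (hx : x ∈ chains n d p m) :
    ExteriorAlgebra.ι (PolyS n) ((1 : PolyS n) ⊗ₜ[ℂ] v) * x ∈ chains n d (p + 1) m := by
  unfold chains wedgeSpan at hx ⊢
  induction hx using AddSubgroup.closure_induction with
  | mem x h =>
    obtain ⟨s, hs, w, rfl⟩ := h
    apply AddSubgroup.subset_closure
    refine ⟨s, hs, Matrix.vecCons v w, ?_⟩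
    unfold wdg
    rw [ExteriorAlgebra.ιMulti_succ_apply, mul_smul_comm]
    rfl
  | zero => rw [mul_zero]; exact AddSubgroup.zero_mem _
  | add x y _ _ hx hy => rw [mul_add]; exact AddSubgroup.add_mem _ hx hy
  | neg x _ hx => rw [mul_neg]; exact AddSubgroup.neg_mem _ hx

theorem chains_le_Ep {p : ℕ} {m : ℤ} {x : KosAlg n d} (hx : x ∈ chains n d p m) :
    x ∈ Ep (PolyS n) (PolyS n ⊗[ℂ] Forms n d) p := by
  unfold chains wedgeSpan at hx
  induction hx using AddSubgroup.closure_induction with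
  | mem x h =>
    obtain ⟨s, hs, w, rfl⟩ := h
    apply Submodule.smul_mem
    exact Submodule.subset_span ⟨_, rfl⟩
  | zero => exact Submodule.zero_mem _
  | add x y _ _ hx hy => exact Submodule.add_mem _ hx hy
  | neg x _ hx => exact Submodule.neg_mem _ hx

theorem chains_smul {p : ℕ} {m : ℤ} (c : ℂ) {x : KosAlg n d} (hx : x ∈ chains n d p m) :
    (MvPolynomial.C c : PolyS n) • x ∈ chains n d p m := by
  unfold chains wedgeSpan at hx ⊢
  induction hx using AddSubgroup.closure_induction with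
  | mem x h =>
    obtain ⟨s, hs, w, rfl⟩ := h
    apply AddSubgroup.subset_closure
    refine ⟨MvPolynomial.C c * s, ?_, w, by rw [mul_smul]⟩
    rw [mul_comm]
    exact piece_mul hs c
  | zero => rw [smul_zero]; exact AddSubgroup.zero_mem _
  | add x y _ _ hx hy => rw [smul_add]; exact AddSubgroup.add_mem _ hx hy
  | neg x _ hx => rw [smul_neg]; exact AddSubgroup.neg_mem _ hx

theorem chains_zero {m : ℤ} {x : KosAlg n d} (hx : x ∈ chains n d 0 m) :
    ∃ s ∈ piece n m, x = algebraMap (PolyS n) _ s := by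
  unfold chains wedgeSpan at hx
  induction hx using AddSubgroup.closure_induction with
  | mem x h =>
    obtain ⟨s, hs, w, rfl⟩ := h
    refine ⟨s, hs, ?_⟩
    unfold wdg
    rw [ExteriorAlgebra.ιMulti_zero_apply, Algebra.algebraMap_eq_smul_one]
  | zero => exact ⟨0, Submodule.zero_mem _, by rw [map_zero]⟩
  | add x y _ _ hx hy =>
    obtain ⟨s, hs, rfl⟩ := hx
    obtain ⟨t, ht, rfl⟩ := hy
    exact ⟨s + t, Submodule.add_mem _ hs ht, by rw [map_add]⟩
  | neg x _ hx =>
    obtain ⟨s, hs, rfl⟩ := hx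
    exact ⟨-s, Submodule.neg_mem _ hs, by rw [map_neg]⟩

theorem ctr_mem_chains (b : Fin (n + 1) →₀ ℕ) {m : ℤ} {p : ℕ} {x : KosAlg n d}
    (hx : x ∈ chains n d (p + 1) m) : ctr (dual n d b) x ∈ chains n d p m := by
  have key : ∀ (p : ℕ) (s : PolyS n), s ∈ piece n m → ∀ w : Fin (p + 1) → Forms n d,
      s • ctr (dual n d b) (ExteriorAlgebra.ιMulti (PolyS n) (p + 1)
        fun i => (1 : PolyS n) ⊗ₜ[ℂ] w i) ∈ chains n d p m := by
    intro p
    induction p with
    | zero =>
      intro s hs w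
      rw [ExteriorAlgebra.ιMulti_succ_apply, ctr_mul, ExteriorAlgebra.ιMulti_zero_apply, ctr_one,
        mul_zero, sub_zero, dual_tmul, one_mul, smul_smul]
      apply AddSubgroup.subset_closure
      exact ⟨_, piece_mul hs _, fun i => Fin.elim0 i, by
        unfold wdg
        rw [ExteriorAlgebra.ιMulti_zero_apply]⟩
    | succ p ih =>
      intro s hs w
      rw [ExteriorAlgebra.ιMulti_succ_apply, ctr_mul, dual_tmul, one_mul, smul_sub, smul_smul,
        ← mul_smul_comm]
      refine AddSubgroup.sub_mem _ ?_ (mul_mem_chains _ (ih s hs fun i => w i.succ))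
      apply AddSubgroup.subset_closure
      exact ⟨_, piece_mul hs _, fun i => w i.succ, rfl⟩
  unfold chains wedgeSpan at hx
  induction hx using AddSubgroup.closure_induction with
  | mem x h =>
    obtain ⟨s, hs, w, rfl⟩ := h
    rw [map_smul]
    exact key p s hs w
  | zero => rw [map_zero]; exact AddSubgroup.zero_mem _
  | add x y _ _ hx hy => rw [map_add]; exact AddSubgroup.add_mem _ hx hy
  | neg x _ hx => rw [map_neg]; exact AddSubgroup.neg_mem _ hx

theorem Psi_chains {m : ℤ} : ∀ (l : List (Fin (n + 1) →₀ ℕ)) (p : ℕ) {x : KosAlg n d},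
    x ∈ chains n d p m → Psi (dual n d) l x ∈ piece n m ∧
      (Psi (dual n d) l x ≠ 0 → l.length = p) := by
  intro l
  induction l with
  | nil =>
    intro p x hx
    rw [Psi_nil]
    cases p with
    | zero =>
      obtain ⟨s, hs, rfl⟩ := chains_zero hx
      have h1 : ExteriorAlgebra.algebraMapInv
          (algebraMap (PolyS n) (KosAlg n d) s) = s :=
        ExteriorAlgebra.algebraMap_leftInverse _ s
      rw [h1]
      exact ⟨hs, fun _ => rfl⟩
    | succ p =>
      have h1 : ExteriorAlgebra.algebraMapInv x = 0 := by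
        have h2 := chains_le_Ep hx
        clear hx
        unfold Ep at h2
        induction h2 using Submodule.span_induction with
        | mem x h =>
          obtain ⟨w, rfl⟩ := h
          rw [ExteriorAlgebra.ιMulti_succ_apply, map_mul]
          have h3 : ExteriorAlgebra.algebraMapInv (ExteriorAlgebra.ι (PolyS n) (w 0)) = 0 := by
            unfold ExteriorAlgebra.algebraMapInv
            rw [ExteriorAlgebra.lift_ι_apply]
            rfl
          rw [h3, zero_mul]
        | zero => rw [map_zero]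
        | add x y _ _ hx hy => rw [map_add, hx, hy, add_zero]
        | smul c x _ hx => rw [map_smul, hx, smul_zero]
      rw [h1]
      exact ⟨Submodule.zero_mem _, fun h => absurd rfl h⟩
  | cons b l ih =>
    intro p x hx
    rw [Psi_cons]
    cases p with
    | zero =>
      obtain ⟨s, hs, rfl⟩ := chains_zero hx
      rw [ctr_algebraMap, map_zero]
      exact ⟨Submodule.zero_mem _, fun h => absurd rfl h⟩
    | succ p =>
      have h1 := ih p (ctr_mem_chains b hx)
      exact ⟨h1.1, fun h => by rw [List.length_cons, h1.2 h]⟩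

theorem Theta_chains {m : ℤ} : ∀ (p : ℕ) (z : List (Fin (n + 1) →₀ ℕ) → PolyS n),
    (∀ l, l.length = p → z l ∈ piece n m) →
    Theta (FF n d) (fun b => (1 : PolyS n) ⊗ₜ[ℂ] mon n d b) p z ∈ chains n d p m := by
  intro p
  induction p with
  | zero =>
    intro z hz
    rw [Theta_zero]
    apply AddSubgroup.subset_closure
    refine ⟨z [], hz [] rfl, fun i => Fin.elim0 i, ?_⟩
    unfold wdg
    rw [ExteriorAlgebra.ιMulti_zero_apply, Algebra.algebraMap_eq_smul_one]
  | succ p ih =>
    intro z hz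
    rw [Theta_succ]
    refine AddSubgroup.sum_mem _ fun b _ => mul_mem_chains _ (ih _ fun l hl => hz _ ?_)
    rw [List.length_cons, hl]

theorem piece_coeff {m : ℤ} {s : PolyS n} (hs : s ∈ piece n m) {ν : Fin (n + 1) →₀ ℕ}
    (h : MvPolynomial.coeff ν s ≠ 0) : (ν.degree : ℤ) = m := by
  unfold piece at hs
  split_ifs at hs with hm
  · by_contra h1
    apply h
    apply ((MvPolynomial.mem_homogeneousSubmodule _ _).1 hs).coeff_eq_zero
    omega
  · rw [Submodule.mem_bot] at hs
    rw [hs] at h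
    exact absurd (MvPolynomial.coeff_zero ν) h

/-- **vanishing**, on the level of elements -/
theorem cycle_is_boundary (n d p : ℕ) (m : ℤ) (hp : p < Bnd d m.toNat) {x : KosAlg n d}
    (hx : x ∈ chains n d p m) (hdx : ctr (mulMap (piece n (d : ℤ))) x = 0) :
    ∃ y ∈ chains n d (p + 1) (m - d), ctr (mulMap (piece n (d : ℤ))) y = x := by
  classical
  set a := m.toNat with ha
  have hapos : 0 < a := by
    by_contra h
    have h0 : a = 0 := by omega
    rw [h0] at hp
    simp [Bnd] at hp
  have hma : m = (a : ℤ) := by omega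
  set F := FF n d with hF
  set Z : List (Fin (n + 1) →₀ ℕ) → PolyS n := fun l => Psi (dual n d) l x with hZ
  have hZA : Alt Z := Psi_alt _ x
  have hZp : ∀ l, Z l ∈ piece n m := fun l => (Psi_chains l p hx).1
  have hZl : ∀ l, Z l ≠ 0 → l.length = p := fun l => (Psi_chains l p hx).2
  have hZF : ∀ l, Z l ≠ 0 → ∀ b ∈ l, b ∈ F := fun l hl =>
    Psi_mem_F (fun b hb => dual_zero hb) l x hl
  have hZd : ∀ l, ∑ b ∈ F, MvPolynomial.monomial b (1 : ℂ) * Z (b :: l) = 0 := by
    intro l
    have h1 := Psi_ctr F (fun b => MvPolynomial.monomial b (1 : ℂ)) (dual n d) x l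
    rw [← mulMap_eq, hdx, map_zero] at h1
    exact h1.symm
  -- the sum of a list of exponents from `F`
  have hsum : ∀ l : List (Fin (n + 1) →₀ ℕ), (∀ b ∈ l, b ∈ F) →
      l.sum.degree = l.length * d := by
    intro l
    induction l with
    | nil => intro _; simp
    | cons b l ih =>
      intro h
      rw [List.sum_cons, map_add, ih fun c hc => h c (List.mem_cons_of_mem _ hc),
        mem_FF.1 (h b List.mem_cons_self), List.length_cons]
      ring
  -- multigraded components
  let zc : (Fin (n + 1) →₀ ℕ) → List (Fin (n + 1) →₀ ℕ) → ℂ := fun μ l =>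
    if l.sum ≤ μ then MvPolynomial.coeff (μ - l.sum) (Z l) else 0
  have hzc0 : ∀ μ l, zc μ l ≠ 0 → l.sum ≤ μ ∧ MvPolynomial.coeff (μ - l.sum) (Z l) ≠ 0 := by
    intro μ l h
    by_cases h1 : l.sum ≤ μ
    · have h2 : zc μ l = MvPolynomial.coeff (μ - l.sum) (Z l) := if_pos h1
      rw [h2] at h
      exact ⟨h1, h⟩
    · exact absurd (if_neg h1) h
  have hzcZ : ∀ μ l, zc μ l ≠ 0 → Z l ≠ 0 := by
    intro μ l h h1
    apply (hzc0 μ l h).2
    rw [h1, MvPolynomial.coeff_zero]
  have hzcE : ∀ μ, ECh F μ p (zc μ) := by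
    intro μ
    constructor
    · intro l₁ b c l₂
      have h1 : (l₁ ++ b :: c :: l₂).sum = (l₁ ++ c :: b :: l₂).sum :=
        (perm_swap l₁ b c l₂).sum_eq
      change (if (l₁ ++ b :: c :: l₂).sum ≤ μ then _ else _) =
        - (if (l₁ ++ c :: b :: l₂).sum ≤ μ then _ else _)
      rw [h1, hZA l₁ b c l₂]
      split_ifs
      · rw [MvPolynomial.coeff_neg]
      · rw [neg_zero]
    · intro l hl
      have h1 := hzcZ μ l hl
      exact ⟨hZF l h1, (hzc0 μ l hl).1, hZl l h1⟩
  have hzcbd : ∀ μ l, bd F (zc μ) l = 0 := by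
    intro μ l
    by_cases hl : l.sum ≤ μ
    · have h1 := congrArg (MvPolynomial.coeff (μ - l.sum)) (hZd l)
      rw [MvPolynomial.coeff_sum, MvPolynomial.coeff_zero] at h1
      rw [← h1]
      unfold bd
      refine Finset.sum_congr rfl fun b _ => ?_
      rw [MvPolynomial.coeff_monomial_mul', one_mul]
      change (if (b :: l).sum ≤ μ then _ else _) = _
      rw [List.sum_cons]
      by_cases hb : b + l.sum ≤ μ
      · rw [if_pos hb, if_pos (le_tsub_of_add_le_right hb), tsub_add_eq_tsub_tsub_swap]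
      · rw [if_neg hb, if_neg]
        intro h2
        apply hb
        have h3 := add_le_add_left h2 l.sum
        rwa [tsub_add_cancel_of_le hl] at h3
    · refine Finset.sum_eq_zero fun b _ => if_neg fun h => hl ?_
      rw [List.sum_cons] at h
      exact le_trans le_add_self h
  -- the multigraded components of the primitive
  have hw : ∀ μ, ∃ w : List (Fin (n + 1) →₀ ℕ) → ℂ, ECh F μ (p + 1) w ∧
      (∀ l, bd F w l = zc μ l) ∧ (μ.degree ≠ p * d + a → ∀ l, w l = 0) := by
    intro μ
    by_cases hμ : μ.degree = p * d + a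
    · obtain ⟨w, hw, hw'⟩ := expo_exact (k := ℂ) d a p hp μ hμ F (fun b => mem_FF) (zc μ)
        (hzcE μ) (hzcbd μ)
      exact ⟨w, hw, hw', fun h => absurd hμ h⟩
    · refine ⟨fun _ => 0, ⟨Alt.zero, fun l hl => absurd rfl hl⟩, ?_, fun _ _ => rfl⟩
      intro l
      rw [bd_zero]
      by_contra h
      have h1 : zc μ l ≠ 0 := Ne.symm h
      have h2 := hzcE μ |>.2 l h1
      have h3 := piece_coeff (hZp l) (hzc0 μ l h1).2
      have h4 : (μ - l.sum).degree + l.sum.degree = μ.degree := by
        rw [← map_add, tsub_add_cancel_of_le h2.2.1]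
      rw [hsum l h2.1, h2.2.2] at h4
      apply hμ
      omega
  choose w hwE hwbd hw0 using hw
  set Q := FF n (p * d + a) with hQ
  let W : List (Fin (n + 1) →₀ ℕ) → PolyS n := fun l =>
    ∑ μ ∈ Q, MvPolynomial.monomial (μ - l.sum) (w μ l)
  have hWc : ∀ l ν, MvPolynomial.coeff ν (W l) = w (ν + l.sum) l := by
    intro l ν
    change MvPolynomial.coeff ν (∑ μ ∈ Q, MvPolynomial.monomial (μ - l.sum) (w μ l)) = _
    rw [MvPolynomial.coeff_sum]
    by_cases h0 : w (ν + l.sum) l = 0
    · rw [h0]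
      refine Finset.sum_eq_zero fun μ _ => ?_
      rw [MvPolynomial.coeff_monomial]
      split_ifs with h1
      · by_contra h2
        have h3 := ((hwE μ).2 l h2).2.1
        rw [← h1, tsub_add_cancel_of_le h3] at h0
        exact h2 h0
      · rfl
    · rw [Finset.sum_eq_single (ν + l.sum)]
      · rw [MvPolynomial.coeff_monomial, add_tsub_cancel_right, if_pos rfl]
      · intro μ _ hμ
        rw [MvPolynomial.coeff_monomial]
        split_ifs with h1
        · by_contra h2
          have h3 := ((hwE μ).2 l h2).2.1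
          apply hμ
          rw [← h1, tsub_add_cancel_of_le h3]
        · rfl
      · intro h1
        exfalso
        apply h1
        rw [hQ, mem_FF]
        by_contra h2
        exact h0 (hw0 _ h2 l)
  have hWA : Alt W := by
    intro l₁ b c l₂
    ext ν
    rw [MvPolynomial.coeff_neg, hWc, hWc, (perm_swap l₁ b c l₂).sum_eq, (hwE _).1 l₁ b c l₂]
  have hWp : ∀ l, l.length = p + 1 → W l ∈ piece n (m - d) := by
    intro l hl
    refine Submodule.sum_mem _ fun μ hμ => ?_
    by_cases h0 : w μ l = 0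
    · rw [h0, map_zero]; exact Submodule.zero_mem _
    · have h1 := (hwE μ).2 l h0
      have h4 : (μ - l.sum).degree + l.sum.degree = μ.degree := by
        rw [← map_add, tsub_add_cancel_of_le h1.2.1]
      rw [hsum l h1.1, hl, mem_FF.1 hμ] at h4
      have h5 : (p + 1) * d = p * d + d := by ring
      unfold piece
      rw [if_pos (by omega), MvPolynomial.mem_homogeneousSubmodule]
      apply MvPolynomial.isHomogeneous_monomial
      omega
  have hWd : ∀ l, ∑ b ∈ F, MvPolynomial.monomial b (1 : ℂ) * W (b :: l) = Z l := by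
    intro l
    ext ν
    rw [MvPolynomial.coeff_sum]
    have h1 : ∀ b ∈ F, MvPolynomial.coeff ν (MvPolynomial.monomial b (1 : ℂ) * W (b :: l)) =
        w (ν + l.sum) (b :: l) := by
      intro b _
      rw [MvPolynomial.coeff_monomial_mul', one_mul]
      split_ifs with hb
      · rw [hWc, List.sum_cons, ← add_assoc, tsub_add_cancel_of_le hb]
      · by_contra h2
        have h3 := ((hwE _).2 _ (Ne.symm h2)).2.1
        rw [List.sum_cons] at h3
        exact hb (le_of_add_le_add_right h3)
    rw [Finset.sum_congr rfl h1]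
    have h2 := hwbd (ν + l.sum) l
    unfold bd at h2
    rw [h2]
    change (if l.sum ≤ ν + l.sum then _ else _) = _
    rw [if_pos le_add_self, add_tsub_cancel_right]
  -- conclusion
  have hid := sum_dual (n := n) (d := d)
  have hT1 := Theta_Psi (F := F) (e := fun b => (1 : PolyS n) ⊗ₜ[ℂ] mon n d b)
    (f := dual n d) hid p (chains_le_Ep hx)
  have hT2 := ctr_Theta (F := F) (e := fun b => (1 : PolyS n) ⊗ₜ[ℂ] mon n d b)
    (φ := mulMap (piece n (d : ℤ))) (X := fun b => MvPolynomial.monomial b (1 : ℂ))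
    (fun b hb => mulMap_mon hb) p W hWA
  have hWd' : (fun l => ∑ b ∈ F, MvPolynomial.monomial b (1 : ℂ) * W (b :: l)) =
      fun l => Psi (dual n d) l x := by
    funext l
    exact hWd l
  rw [hWd', hT1, smul_smul] at hT2
  set y := Theta F (fun b => (1 : PolyS n) ⊗ₜ[ℂ] mon n d b) (p + 1) W with hy
  have hyC : y ∈ chains n d (p + 1) (m - d) := Theta_chains (p + 1) W hWp
  set c : ℂ := ((p + 1 : ℕ) : ℂ) * ((p.factorial : ℕ) : ℂ) with hc
  have hc0 : c ≠ 0 := by
    rw [hc]
    apply mul_ne_zero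
    · rw [Nat.cast_ne_zero]; omega
    · rw [Nat.cast_ne_zero]; exact Nat.factorial_ne_zero p
  have hyx : ctr (mulMap (piece n (d : ℤ))) y = (MvPolynomial.C c : PolyS n) • x := by
    rw [hT2, hc, map_mul, map_natCast, map_natCast]
  refine ⟨(MvPolynomial.C c⁻¹ : PolyS n) • y, chains_smul _ hyC, ?_⟩
  rw [map_smul, hyx, smul_smul, ← map_mul, inv_mul_cancel₀ hc0, map_one, one_smul]

/-- **vanishing of Koszul cohomology** -/
theorem vanishing (n : ℕ) (b : ℤ) (d p : ℕ) (q : ℤ)
    (hp : p < ∑ i ∈ Finset.range (q * d + b).toNat, i / (d - 1)) :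
    Subsingleton (KoszulCohomology n b d p q) := by
  have key : ∀ x ∈ cycles (mulMap (piece n (d : ℤ)))
      (fun v : piece n (d : ℤ) => (1 : PolyS n) ⊗ₜ[ℂ] v) (piece n (q * d + b) : Set (PolyS n)) p,
      x ∈ boundaries (mulMap (piece n (d : ℤ)))
      (fun v : piece n (d : ℤ) => (1 : PolyS n) ⊗ₜ[ℂ] v)
      (piece n ((q - 1) * d + b) : Set (PolyS n)) p := by
    rintro x ⟨hx1, hx2⟩
    obtain ⟨y, hy, hyx⟩ := cycle_is_boundary n d p (q * d + b) hp hx1 hx2
    have h1 : q * (d : ℤ) + b - d = (q - 1) * d + b := by ring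
    rw [h1] at hy
    exact ⟨y, hy, hyx⟩
  unfold KoszulCohomology KoszulHomology Homology
  refine ⟨fun a b => ?_⟩
  induction a using QuotientAddGroup.induction_on with
  | H x =>
  induction b using QuotientAddGroup.induction_on with
  | H y =>
  rw [QuotientAddGroup.eq, AddSubgroup.mem_addSubgroupOf]
  exact key _ (SetLike.coe_mem _)

end VK
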