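import Mathlib

/-!
# Alternating functions on lists

Chains of a Koszul (or simplicial) complex are represented by alternating functions on lists of
blocks: `Alt z` means that `z` changes sign when two neighbours are exchanged. The boundary is
`(bd F z) l = ∑ b ∈ F, z (b :: l)`; `ins w = ∑ e_c ∧ w_c`.
-/

namespace VK

variable {k : Type*} [CommRing k] {β : Type*}

/-- alternating functions on lists -/
def Alt (z : List β → k) : Prop :=
  ∀ (l₁ : List β) (a b : β) (l₂ : List β), z (l₁ ++ a :: b :: l₂) = - z (l₁ ++ b :: a :: l₂)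

/-- `ins w = ∑ e_c ∧ w_c` -/
def ins : (β → List β → k) → List β → k
  | _, [] => 0
  | w, b :: l => w b l - ins (fun c l' => w c (b :: l')) l

/-- the boundary -/
def bd (F : Finset β) (z : List β → k) (l : List β) : k := ∑ b ∈ F, z (b :: l)

theorem ins_nil (w : β → List β → k) : ins w [] = 0 := by rw [ins]

theorem ins_cons (w : β → List β → k) (b : β) (l : List β) :
    ins w (b :: l) = w b l - ins (fun c l' => w c (b :: l')) l := by rw [ins]

theorem ins_zero (l : List β) : ins (fun _ _ => (0 : k)) l = 0 := by
  induction l with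
  | nil => rw [ins_nil]
  | cons b l ih => rw [ins_cons, ih, sub_zero]

theorem ins_add (w w' : β → List β → k) (l : List β) :
    ins (fun c l => w c l + w' c l) l = ins w l + ins w' l := by
  induction l generalizing w w' with
  | nil => simp only [ins_nil, add_zero]
  | cons b l ih => simp only [ins_cons]; rw [ih]; ring

theorem ins_mul (a : k) (w : β → List β → k) (l : List β) :
    ins (fun c l => a * w c l) l = a * ins w l := by
  induction l generalizing w with
  | nil => simp only [ins_nil, mul_zero]
  | cons b l ih => simp only [ins_cons]; rw [ih]; ring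

theorem ins_neg (w : β → List β → k) (l : List β) :
    ins (fun c l => - w c l) l = - ins w l := by
  have := ins_mul (-1) w l
  simpa using this

theorem ins_sum {ι : Type*} (s : Finset ι) (w : ι → β → List β → k) (l : List β) :
    ins (fun c l => ∑ i ∈ s, w i c l) l = ∑ i ∈ s, ins (w i) l := by
  classical
  induction s using Finset.induction with
  | empty => simp only [Finset.sum_empty, ins_zero]
  | insert a s ha ih => simp only [Finset.sum_insert ha]; rw [ins_add, ih]

theorem ins_ne_zero {w : β → List β → k} {l : List β} (h : ins w l ≠ 0) :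
    ∃ l₁ c l₂, l = l₁ ++ c :: l₂ ∧ w c (l₁ ++ l₂) ≠ 0 := by
  induction l generalizing w with
  | nil => exact absurd (ins_nil w) h
  | cons b l ih =>
    by_cases h1 : w b l = 0
    · rw [ins_cons, h1, zero_sub, neg_ne_zero] at h
      obtain ⟨l₁, c, l₂, h2, h3⟩ := ih h
      exact ⟨b :: l₁, c, l₂, by rw [h2]; rfl, h3⟩
    · exact ⟨[], b, l, rfl, h1⟩

theorem Alt.head {z : List β → k} (hz : Alt z) (a b : β) (l : List β) :
    z (a :: b :: l) = - z (b :: a :: l) := hz [] a b l

theorem Alt.cons {z : List β → k} (hz : Alt z) (b : β) : Alt fun l => z (b :: l) :=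
  fun l₁ a c l₂ => hz (b :: l₁) a c l₂

theorem Alt.zero : Alt (fun _ : List β => (0 : k)) := fun _ _ _ _ => by rw [neg_zero]

theorem Alt.add {z z' : List β → k} (hz : Alt z) (hz' : Alt z') : Alt fun l => z l + z' l := by
  intro l₁ a b l₂
  simp only
  rw [hz, hz']; ring

theorem Alt.mul {z : List β → k} (hz : Alt z) (c : k) : Alt fun l => c * z l := by
  intro l₁ a b l₂
  simp only
  rw [hz]; ring

theorem Alt.neg {z : List β → k} (hz : Alt z) : Alt fun l => - z l := by
  intro l₁ a b l₂
  simp only
  rw [hz]

theorem Alt.sub {z z' : List β → k} (hz : Alt z) (hz' : Alt z') : Alt fun l => z l - z' l := by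
  intro l₁ a b l₂
  simp only
  rw [hz, hz']; ring

theorem Alt.sum {ι : Type*} {s : Finset ι} {z : ι → List β → k} (hz : ∀ i ∈ s, Alt (z i)) :
    Alt fun l => ∑ i ∈ s, z i l := by
  intro l₁ a b l₂
  simp only
  rw [← Finset.sum_neg_distrib]
  exact Finset.sum_congr rfl fun i hi => hz i hi l₁ a b l₂

theorem Alt.bd {z : List β → k} (hz : Alt z) (F : Finset β) : Alt (bd F z) := by
  intro l₁ a b l₂
  unfold VK.bd
  rw [← Finset.sum_neg_distrib]
  exact Finset.sum_congr rfl fun c _ => hz (c :: l₁) a b l₂

theorem Alt.ins {w : β → List β → k} (hw : ∀ c, Alt (w c)) : Alt (ins w) := by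
  intro l₁
  induction l₁ generalizing w with
  | nil =>
    intro a b l₂
    simp only [List.nil_append, ins_cons]
    have h1 : (fun c l' => w c (a :: b :: l')) = fun c l' => - w c (b :: a :: l') := by
      funext c l'
      exact (hw c).head a b l'
    rw [h1, ins_neg]
    ring
  | cons x l₁ ih =>
    intro a b l₂
    simp only [List.cons_append, ins_cons]
    rw [hw x l₁ a b l₂, ih (w := fun c l' => w c (x :: l')) (fun c => (hw c).cons x)]
    ring

theorem bd_ins (F : Finset β) (w : β → List β → k) (l : List β) :
    bd F (ins w) l = ∑ b ∈ F, w b l - ins (fun c => bd F (w c)) l := by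
  have h1 : ins (fun c => bd F (w c)) l = ∑ b ∈ F, ins (fun c l' => w c (b :: l')) l := by
    rw [← ins_sum]
    rfl
  rw [h1, ← Finset.sum_sub_distrib]
  exact Finset.sum_congr rfl fun b _ => ins_cons w b l

theorem bd_add (F : Finset β) (z z' : List β → k) (l : List β) :
    bd F (fun l => z l + z' l) l = bd F z l + bd F z' l := Finset.sum_add_distrib

theorem bd_sub (F : Finset β) (z z' : List β → k) (l : List β) :
    bd F (fun l => z l - z' l) l = bd F z l - bd F z' l := Finset.sum_sub_distrib _ _

theorem bd_mul (F : Finset β) (c : k) (z : List β → k) (l : List β) :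
    bd F (fun l => c * z l) l = c * bd F z l := (Finset.mul_sum _ _ _).symm

theorem bd_neg (F : Finset β) (z : List β → k) (l : List β) :
    bd F (fun l => - z l) l = - bd F z l := Finset.sum_neg_distrib _

theorem bd_zero (F : Finset β) (l : List β) : bd F (fun _ => (0 : k)) l = 0 :=
  Finset.sum_const_zero

theorem bd_sum {ι : Type*} (F : Finset β) (s : Finset ι) (z : ι → List β → k) (l : List β) :
    bd F (fun l => ∑ i ∈ s, z i l) l = ∑ i ∈ s, bd F (z i) l := Finset.sum_comm

/-- the boundary of a boundary is zero -/
theorem bd_bd [NoZeroDivisors k] [CharZero k] {z : List β → k} (hz : Alt z) (F : Finset β) (l : List β) :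
    bd F (bd F z) l = 0 := by
  have h1 : bd F (bd F z) l = - bd F (bd F z) l := by
    unfold bd
    conv_lhs => rw [Finset.sum_comm]
    rw [← Finset.sum_neg_distrib]
    refine Finset.sum_congr rfl fun a _ => ?_
    rw [← Finset.sum_neg_distrib]
    exact Finset.sum_congr rfl fun b _ => hz.head a b l
  exact CharZero.eq_neg_self_iff.1 h1

/-- moving an element to the front -/
theorem Alt.middle {z : List β → k} (hz : Alt z) (l₁ : List β) (a : β) (l₂ : List β) :
    z (l₁ ++ a :: l₂) = (-1) ^ l₁.length * z (a :: (l₁ ++ l₂)) := by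
  induction l₁ generalizing z with
  | nil => simp
  | cons b l₁ ih =>
    have h1 : z (b :: (l₁ ++ a :: l₂)) = (-1) ^ l₁.length * z (b :: a :: (l₁ ++ l₂)) :=
      ih (hz.cons b)
    simp only [List.cons_append, List.length_cons]
    rw [h1, hz.head, pow_succ]
    ring

theorem Alt.dup [NoZeroDivisors k] [CharZero k] {z : List β → k} (hz : Alt z) {l : List β} (hl : ¬ l.Nodup) :
    z l = 0 := by
  induction l generalizing z with
  | nil => exact absurd List.nodup_nil hl
  | cons a l ih =>
    by_cases h : a ∈ l
    · obtain ⟨l₁, l₂, rfl⟩ := List.append_of_mem h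
      have h1 : z (a :: (l₁ ++ a :: l₂)) = (-1) ^ l₁.length * z (a :: a :: (l₁ ++ l₂)) :=
        (hz.cons a).middle l₁ a l₂
      rw [h1]
      have h2 : z (a :: a :: (l₁ ++ l₂)) = 0 := CharZero.eq_neg_self_iff.1 (hz.head a a _)
      rw [h2, mul_zero]
    · have h1 : ¬ l.Nodup := fun h2 => hl (List.nodup_cons.2 ⟨h, h2⟩)
      exact ih (hz.cons a) h1

/-- if `z` lives on lists with exactly one marked entry then `z = ∑ e_c ∧ z_c` over the marked `c` -/
theorem ins_marked (P : β → Prop) [DecidablePred P] {z : List β → k} (hz : Alt z)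
    (hc : ∀ l, z l ≠ 0 → l.countP P = 1) (l : List β) :
    ins (fun c l => if P c then z (c :: l) else 0) l = z l := by
  induction l generalizing z with
  | nil =>
    rw [ins_nil]
    by_contra h
    have := hc [] (Ne.symm h)
    simp at this
  | cons b l ih =>
    rw [ins_cons]
    by_cases hb : P b
    · rw [if_pos hb]
      have h1 : (fun c l' => if P c then z (c :: b :: l') else 0) = fun _ _ => (0 : k) := by
        funext c l'
        split_ifs with hc'
        · by_contra h
          have := hc _ h
          simp [List.countP_cons, hc', hb] at this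
        · rfl
      rw [h1, ins_zero, sub_zero]
    · rw [if_neg hb, zero_sub]
      have h1 : (fun c l' => if P c then z (c :: b :: l') else 0) =
          fun c l' => - (if P c then (fun l => z (b :: l)) (c :: l') else 0) := by
        funext c l'
        split_ifs with hc'
        · exact hz.head c b l'
        · rw [neg_zero]
      rw [h1, ins_neg, neg_neg, ih (hz.cons b)]
      intro l' h
      have := hc _ h
      rwa [List.countP_cons, if_neg (by simpa using hb), add_zero] at this

theorem Alt.ite {z : List β → k} (hz : Alt z) (P : List β → Prop) [DecidablePred P]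
    (hP : ∀ l₁ a b l₂, P (l₁ ++ a :: b :: l₂) ↔ P (l₁ ++ b :: a :: l₂)) :
    Alt fun l => if P l then z l else 0 := by
  intro l₁ a b l₂
  simp only
  by_cases h : P (l₁ ++ a :: b :: l₂)
  · rw [if_pos h, if_pos ((hP _ _ _ _).1 h), hz]
  · rw [if_neg h, if_neg (fun h' => h ((hP _ _ _ _).2 h')), neg_zero]

theorem perm_swap (l₁ : List β) (a b : β) (l₂ : List β) :
    (l₁ ++ a :: b :: l₂).Perm (l₁ ++ b :: a :: l₂) :=
  List.Perm.append_left l₁ (List.Perm.swap b a l₂)

end VK
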