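import Pool.Agent.VK.Transfer

/-!
# Exactness of the squarefree model and of the exponent model

`set_exact`: the squarefree model on `pd + a` points is exact at `p` blocks when
`p < ∑_{i<a} ⌊i/(d-1)⌋`.
-/

namespace VK

open Equiv

/-- the bound -/
def Bnd (d a : ℕ) : ℕ := ∑ i ∈ Finset.range a, i / (d - 1)

theorem Bnd_succ (d a : ℕ) : Bnd d (a + 1) = Bnd d a + a / (d - 1) :=
  Finset.sum_range_succ _ _

variable {k : Type*} [Field k] [CharZero k] {α : Type*} [Fintype α] [DecidableEq α]

/-- invariant modulo boundaries, few colours -/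
theorem few_colours {d p m a : ℕ} {X : Finset α} (hX : X.card = p * d + (a + 1))
    (hm : m * (d - 1) ≤ a) (c : α → ℕ) (hc : (X.image c).card < m + 1)
    {z : List (Finset α) → k} (hz : z ∈ ChS k d X p) (hbd : bdL (X.powersetCard d) z = 0)
    (hinv : ∀ g ∈ ST X, (∀ x, c (g x) = c x) →
      rho k α g z - z ∈ (ChS k d X (p + 1)).map (bdL (X.powersetCard d))) :
    z ∈ (ChS k d X (p + 1)).map (bdL (X.powersetCard d)) := by
  classical
  set P := X.powersetCard d with hP
  set Bd := (ChS k d X (p + 1)).map (bdL P) with hBd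
  set G := (ST X).filter fun g => ∀ x, c (g x) = c x with hG
  have hGX : ∀ g ∈ G, g ∈ ST X := fun g hg => (Finset.mem_filter.1 hg).1
  have hGc : ∀ g ∈ G, ∀ x, c (g x) = c x := fun g hg => (Finset.mem_filter.1 hg).2
  have hG0 : (G.card : k) ≠ 0 := by
    rw [Nat.cast_ne_zero]
    refine (Finset.card_pos.2 ⟨1, ?_⟩).ne'
    rw [hG, Finset.mem_filter]
    exact ⟨one_mem_ST X, fun _ => rfl⟩
  set zb := (G.card : k)⁻¹ • ∑ g ∈ G, rho k α g z with hzb
  have h1 : zb - z ∈ Bd := by
    have h2 : zb - z = (G.card : k)⁻¹ • ∑ g ∈ G, (rho k α g z - z) := by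
      rw [Finset.sum_sub_distrib, Finset.sum_const, smul_sub, ← Nat.cast_smul_eq_nsmul k,
        smul_smul, inv_mul_cancel₀ hG0, one_smul]
    rw [h2]
    exact Submodule.smul_mem _ _ (Submodule.sum_mem _ fun g hg => hinv g (hGX g hg) (hGc g hg))
  have h2 : zb ∈ Bd := by
    have hI : ∀ b ∈ P.image (content c) ∪ (X.image c).image (fun i => Finsupp.single i d),
        b.degree = d := by
      intro b hb
      rw [Finset.mem_union, Finset.mem_image, Finset.mem_image] at hb
      rcases hb with ⟨B, hB, rfl⟩ | ⟨i, _, rfl⟩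
      · rw [degree_content]
        exact (Finset.mem_powersetCard.1 hB).2
      · exact Finsupp.degree_single i d
    have hex : EEx k (P.image (content c) ∪ (X.image c).image (fun i => Finsupp.single i d))
        (content c X) p := by
      apply pureExact (X.image c) d _ _ hI p _ (content_support c X)
      · rw [degree_content, hX]
        have h3 : (X.image c).card * (d - 1) ≤ m * (d - 1) :=
          Nat.mul_le_mul_right _ (by omega)
        omega
      · intro i hi
        exact Finset.mem_union_right _ (Finset.mem_image_of_mem _ hi)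
    refine Submodule.mem_map.2 (inv_boundary (k := k) (d := d) (p := p) (X := X) c
      (F := P.image (content c) ∪ (X.image c).image (fun i => Finsupp.single i d))
      (fun B hB => Finset.mem_union_left _ (Finset.mem_image_of_mem _ hB)) hI hex
      (z := zb) ?_ ?_ ?_)
    · exact Submodule.smul_mem _ _ (Submodule.sum_mem _ fun g hg => ChS_rho (hGX g hg) hz)
    · rw [hzb, map_smul, map_sum]
      have h3 : ∀ g ∈ G, bdL (X.powersetCard d) (rho k α g z) = 0 := by
        intro g hg
        rw [bdL_rho (hGX g hg), ← hP, hbd, map_zero]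
      rw [Finset.sum_congr rfl h3, Finset.sum_const_zero, smul_zero]
    · intro h hh hhc
      rw [hzb, map_smul, map_sum]
      congr 1
      refine Finset.sum_nbij' (fun g => h * g) (fun g => h⁻¹ * g) ?_ ?_ ?_ ?_ ?_
      · intro g hg
        rw [hG, Finset.mem_filter] at hg ⊢
        refine ⟨mul_mem_ST hh hg.1, fun x => ?_⟩
        rw [Perm.mul_apply, hhc, hg.2]
      · intro g hg
        rw [hG, Finset.mem_filter] at hg ⊢
        refine ⟨mul_mem_ST (inv_mem_ST hh) hg.1, fun x => ?_⟩
        rw [Perm.mul_apply, ← hhc (h⁻¹ (g x)), ← hg.2 x]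
        simp
      · intro g _; simp
      · intro g _; simp
      · intro g _
        exact (rho_mul (rho k α) h g z).symm
  have h3 : z = zb - (zb - z) := by abel
  rw [h3]
  exact Submodule.sub_mem _ h2 h1

/-- **exactness of the squarefree model** -/
theorem set_exact (d : ℕ) : ∀ (a p : ℕ), p < Bnd d a → ∀ X : Finset α, X.card = p * d + a →
    Ex k d X p := by
  classical
  intro a
  induction a with
  | zero =>
    intro p hp
    exact absurd hp (by simp [Bnd])
  | succ a iha =>
    intro p
    induction p using Nat.strong_induction_on with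
    | _ p ihp =>
    intro hp X hX z hz hbd
    obtain ⟨m, hBm, hm'⟩ : ∃ m, Bnd d (a + 1) = Bnd d a + m ∧ m * (d - 1) ≤ a :=
      ⟨a / (d - 1), Bnd_succ d a, Nat.div_mul_le_self a (d - 1)⟩
    rw [hBm] at hp
    set P := X.powersetCard d with hP
    have hbd' : bdL P z = 0 := by
      funext l
      exact hbd l
    set Z := ChS k d X p ⊓ LinearMap.ker (bdL P) with hZ
    set Bd := (ChS k d X (p + 1)).map (bdL P) with hBd
    have hzZ : z ∈ Z := ⟨hz, hbd'⟩
    have key : z ∈ Bd := by
      refine rep_lemma (rho k α) (Z := Z) (B := Bd) (X := X) ?_ ?_ (m + 1) ?_ ?_ z hzZ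
      · rintro g hg z ⟨h1, h2⟩
        refine ⟨ChS_rho hg h1, ?_⟩
        rw [SetLike.mem_coe, LinearMap.mem_ker] at h2 ⊢
        rw [hP, bdL_rho hg, ← hP, h2, map_zero]
      · rintro g hg z ⟨w, hw, rfl⟩
        refine ⟨rho k α g w, ChS_rho hg hw, ?_⟩
        rw [hP, bdL_rho hg]
      · rintro c hc z ⟨h1, h2⟩ hinv
        rw [SetLike.mem_coe, LinearMap.mem_ker] at h2
        exact few_colours hX hm' c hc h1 h2 hinv
      · rintro T hTX hT z ⟨h1, h2⟩
        rw [SetLike.mem_coe, LinearMap.mem_ker] at h2
        have hTne : T.Nonempty := Finset.card_pos.1 (by omega)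
        refine Submodule.mem_map.2 (anti_boundary (k := k) (d := d) (p := p) hTX hTne ?_ ?_
          (z := altT (rho k α) T z) (ChS_altT hTX h1) ?_ (fun g hg => rho_altT (rho k α) hg z))
        · apply qex T X p hTX
          intro Y hY hYc q hq
          rw [hT] at hYc hq
          apply ihp q (by omega) (by rw [hBm]; omega)
          have h3 : p * d = q * d + (m + 1) * d := by rw [← hq]; ring
          omega
        · intro t ht
          have hTt : (T.erase t).card = m := by
            rw [Finset.card_erase_of_mem ht, hT]; rfl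
          have hXt : (X.erase t).card = p * d + a := by
            rw [Finset.card_erase_of_mem (hTX ht), hX]; rfl
          apply qex (T.erase t) (X.erase t) p (Finset.erase_subset_erase t hTX)
          intro Y hY hYc q hq
          rw [hTt] at hYc hq
          rw [hXt] at hYc
          apply iha q (by omega)
          have h3 : p * d = q * d + m * d := by rw [← hq]; ring
          omega
        · rw [bdL_altT hTX, ← hP, h2]
          unfold altT
          exact Finset.sum_eq_zero fun g _ => by rw [map_zero, smul_zero]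
    obtain ⟨w, hw, hw'⟩ := key
    exact ⟨w, hw, fun l => congrFun hw' l⟩

/-- **exactness of the exponent model** -/
theorem expo_exact {σ : Type*} [Fintype σ] [DecidableEq σ] (d a p : ℕ) (hp : p < Bnd d a)
    (μ : σ →₀ ℕ) (hμ : μ.degree = p * d + a) (F : Finset (σ →₀ ℕ))
    (hF : ∀ b, b ∈ F ↔ b.degree = d) : EEx k F μ p := by
  classical
  set X : Finset (Σ i : σ, Fin (μ i)) := Finset.univ with hX
  have h1 : content (fun x : (Σ i : σ, Fin (μ i)) => x.1) X = μ := by
    ext i
    rw [content_apply, hX]
    have h2 : (Finset.univ.filter fun x : (Σ i : σ, Fin (μ i)) => x.1 = i) =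
        (Finset.univ : Finset (Fin (μ i))).image (fun j => (⟨i, j⟩ : Σ i : σ, Fin (μ i))) := by
      ext ⟨j, x⟩
      simp only [Finset.mem_filter, Finset.mem_univ, true_and, Finset.mem_image]
      constructor
      · intro h
        subst h
        exact ⟨x, rfl⟩
      · rintro ⟨y, hy⟩
        exact (congrArg Sigma.fst hy).symm
    rw [h2, Finset.card_image_of_injective, Finset.card_univ, Fintype.card_fin]
    intro x y hxy
    simpa using hxy
  rw [← h1]
  apply eex_of_ex _ (d := d)
  · intro B hB
    rw [hF, degree_content]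
    exact (Finset.mem_powersetCard.1 hB).2
  · exact fun b hb => (hF b).1 hb
  · apply set_exact d a p hp
    rw [← degree_content (fun x : (Σ i : σ, Fin (μ i)) => x.1), h1, hμ]

end VK
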