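import Pool.Agent.VK.Lists

/-!
# The squarefree model

Chains are alternating functions on lists of pairwise disjoint `d`-subsets (called blocks) of a finite
set `X`. `Ex d X p`: the complex is exact at `p` blocks. `QEx d X T p`: exactness of the complex of
lists which cover `T`, every block containing at most one element of `T`, where only blocks which
avoid `T` may be removed.
-/

namespace VK

variable {k : Type*} [Field k] {α : Type*} [DecidableEq α]

/-- lists of pairwise disjoint `d`-subsets of `X` -/
def Valid (d : ℕ) (X : Finset α) (l : List (Finset α)) : Prop :=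
  (∀ B ∈ l, B ⊆ X ∧ B.card = d) ∧ l.Pairwise Disjoint

/-- chains with `p` blocks -/
def Ch (d : ℕ) (X : Finset α) (p : ℕ) (z : List (Finset α) → k) : Prop :=
  Alt z ∧ ∀ l, z l ≠ 0 → Valid d X l ∧ l.length = p

variable (k) in
/-- exactness at `p` blocks -/
def Ex (d : ℕ) (X : Finset α) (p : ℕ) : Prop :=
  ∀ z : List (Finset α) → k, Ch d X p z → (∀ l, bd (X.powersetCard d) z l = 0) →
    ∃ w : List (Finset α) → k, Ch d X (p + 1) w ∧ ∀ l, bd (X.powersetCard d) w l = z l

/-- the list covers `T`, each block has at most one element of `T` -/
def Cov (T : Finset α) (l : List (Finset α)) : Prop :=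
  (∀ t ∈ T, ∃ B ∈ l, t ∈ B) ∧ ∀ B ∈ l, (B ∩ T).card ≤ 1

/-- chains supported on lists with `Cov T` -/
def QCh (d : ℕ) (X T : Finset α) (p : ℕ) (z : List (Finset α) → k) : Prop :=
  Ch d X p z ∧ ∀ l, z l ≠ 0 → Cov T l

variable (k) in
/-- exactness for `QCh`, with boundary over the blocks avoiding `T` -/
def QEx (d : ℕ) (X T : Finset α) (p : ℕ) : Prop :=
  ∀ z : List (Finset α) → k, QCh d X T p z → (∀ l, bd ((X \ T).powersetCard d) z l = 0) →
    ∃ w : List (Finset α) → k, QCh d X T (p + 1) w ∧
      ∀ l, bd ((X \ T).powersetCard d) w l = z l

theorem Valid.perm {d : ℕ} {X : Finset α} {l l' : List (Finset α)} (h : Valid d X l)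
    (hp : l.Perm l') : Valid d X l' := by
  refine ⟨fun B hB => h.1 B (hp.mem_iff.2 hB), ?_⟩
  exact (hp.pairwise_iff (fun hab => hab.symm)).1 h.2

theorem Cov.perm {T : Finset α} {l l' : List (Finset α)} (h : Cov T l) (hp : l.Perm l') :
    Cov T l' := by
  refine ⟨fun t ht => ?_, fun B hB => h.2 B (hp.mem_iff.2 hB)⟩
  obtain ⟨B, hB, htB⟩ := h.1 t ht
  exact ⟨B, hp.mem_iff.1 hB, htB⟩

theorem valid_cons {d : ℕ} {X : Finset α} {B : Finset α} {l : List (Finset α)} :
    Valid d X (B :: l) ↔ (B ⊆ X ∧ B.card = d) ∧ Valid d (X \ B) l := by
  unfold Valid
  rw [List.pairwise_cons]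
  constructor
  · rintro ⟨h1, h2, h3⟩
    refine ⟨h1 B (List.mem_cons_self), ?_, h3⟩
    intro C hC
    refine ⟨?_, (h1 C (List.mem_cons_of_mem _ hC)).2⟩
    intro x hx
    rw [Finset.mem_sdiff]
    exact ⟨(h1 C (List.mem_cons_of_mem _ hC)).1 hx,
      fun hxB => (Finset.disjoint_left.1 (h2 C hC)) hxB hx⟩
  · rintro ⟨h1, h2, h3⟩
    refine ⟨?_, ?_, h3⟩
    · intro C hC
      rcases List.mem_cons.1 hC with h | h
      · rw [h]; exact h1
      · exact ⟨(h2 C h).1.trans Finset.sdiff_subset, (h2 C h).2⟩
    · intro C hC
      rw [Finset.disjoint_left]
      intro x hx hxC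
      have := (h2 C hC).1 hxC
      rw [Finset.mem_sdiff] at this
      exact this.2 hx

theorem Valid.mono {d : ℕ} {X Y : Finset α} {l : List (Finset α)} (h : Valid d X l)
    (hXY : X ⊆ Y) : Valid d Y l :=
  ⟨fun B hB => ⟨(h.1 B hB).1.trans hXY, (h.1 B hB).2⟩, h.2⟩

theorem valid_nil (d : ℕ) (X : Finset α) : Valid d X [] :=
  ⟨fun B hB => absurd hB List.not_mem_nil, List.Pairwise.nil⟩

theorem valid_iff_perm {d : ℕ} {X : Finset α} {l l' : List (Finset α)} (hp : l.Perm l') :
    Valid d X l ↔ Valid d X l' := ⟨fun h => h.perm hp, fun h => h.perm hp.symm⟩

theorem cov_iff_perm {T : Finset α} {l l' : List (Finset α)} (hp : l.Perm l') :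
    Cov T l ↔ Cov T l' := ⟨fun h => h.perm hp, fun h => h.perm hp.symm⟩

theorem bd_subset {β : Type*} {F G : Finset β} (hFG : F ⊆ G) (z : List β → k) (l : List β)
    (h : ∀ b ∈ G, b ∉ F → z (b :: l) = 0) : bd F z l = bd G z l :=
  Finset.sum_subset hFG h

theorem qex {d : ℕ} (T : Finset α) : ∀ (X : Finset α) (p : ℕ), T ⊆ X →
    (∀ Y, Y ⊆ X → Y.card + T.card * d = X.card → ∀ q, q + T.card = p → Ex k d Y q) →
    QEx k d X T p := by
  classical
  induction T using Finset.induction with
  | empty =>
    intro X p _ h z hz hbd
    have h1 := h X (Finset.Subset.refl X) (by simp) p (by simp)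
    rw [Finset.sdiff_empty] at hbd ⊢
    obtain ⟨w, hw, hw'⟩ := h1 z hz.1 hbd
    refine ⟨w, ⟨hw, fun l _ => ⟨fun t ht => absurd ht (Finset.notMem_empty t), fun B _ => ?_⟩⟩, hw'⟩
    simp
  | insert t T ht ih =>
    intro X p hTX h z hz hbd
    obtain ⟨⟨hzA, hzs⟩, hzc⟩ := hz
    have htX : t ∈ X := hTX (Finset.mem_insert_self t T)
    have hT'X : T ⊆ X := (Finset.subset_insert t T).trans hTX
    cases p with
    | zero =>
      -- `z = 0`
      refine ⟨fun _ => 0, ⟨⟨Alt.zero, fun l hl => absurd rfl hl⟩, fun l hl => absurd rfl hl⟩, ?_⟩
      intro l
      rw [bd_zero]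
      by_contra h0
      have h1 := (hzs l (Ne.symm h0)).2
      have h2 := (hzc l (Ne.symm h0)).1 t (Finset.mem_insert_self t T)
      rw [List.length_eq_zero_iff.1 h1] at h2
      obtain ⟨B, hB, _⟩ := h2
      exact absurd hB List.not_mem_nil
    | succ p =>
      -- good blocks
      let good : Finset α → Prop := fun c => c ⊆ X ∧ c.card = d ∧ t ∈ c ∧ Disjoint c T
      have key : ∀ c, good c → ∃ w : List (Finset α) → k, QCh d (X \ c) T (p + 1) w ∧
          ∀ l, bd (((X \ c) \ T).powersetCard d) w l = z (c :: l) := by
        intro c hc
        obtain ⟨hcX, hcd, htc, hcT⟩ := hc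
        have hTXc : T ⊆ X \ c := by
          intro x hx
          rw [Finset.mem_sdiff]
          exact ⟨hT'X hx, fun hxc => (Finset.disjoint_left.1 hcT) hxc hx⟩
        have hcard : (X \ c).card + d = X.card := by
          rw [← hcd]
          exact Finset.card_sdiff_add_card_eq_card hcX
        have h1 : QEx k d (X \ c) T p := by
          apply ih (X \ c) p hTXc
          intro Y hY hYc q hq
          apply h Y (hY.trans Finset.sdiff_subset)
          · rw [Finset.card_insert_of_notMem ht, add_mul, one_mul]; omega
          · rw [Finset.card_insert_of_notMem ht]; omega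
        apply h1 (fun l => z (c :: l))
        · refine ⟨⟨hzA.cons c, ?_⟩, ?_⟩
          · intro l hl
            have h2 := hzs _ hl
            refine ⟨(valid_cons.1 h2.1).2, ?_⟩
            have h3 := h2.2
            rw [List.length_cons] at h3
            omega
          · intro l hl
            have h2 := hzc _ hl
            constructor
            · intro s hs
              obtain ⟨B, hB, hsB⟩ := h2.1 s (Finset.mem_insert_of_mem hs)
              rcases List.mem_cons.1 hB with h3 | h3
              · rw [h3] at hsB
                exact absurd hs ((Finset.disjoint_left.1 hcT) hsB)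
              · exact ⟨B, h3, hsB⟩
            · intro B hB
              refine le_trans (Finset.card_le_card ?_) (h2.2 B (List.mem_cons_of_mem _ hB))
              exact Finset.inter_subset_inter_left (Finset.subset_insert t T)
        · intro l
          have h2 : bd (((X \ c) \ T).powersetCard d) (fun l => z (c :: l)) l =
              bd ((X \ insert t T).powersetCard d) (fun l => z (c :: l)) l := by
            apply bd_subset
            · intro B hB
              rw [Finset.mem_powersetCard] at hB ⊢
              refine ⟨fun x hx => ?_, hB.2⟩
              have h3 := hB.1 hx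
              rw [Finset.mem_sdiff, Finset.mem_sdiff] at h3
              rw [Finset.mem_sdiff, Finset.mem_insert]
              refine ⟨h3.1.1, ?_⟩
              rintro (h4 | h4)
              · rw [h4] at h3; exact h3.1.2 htc
              · exact h3.2 h4
            · intro B hB hB'
              by_contra h3
              have h4 := (hzs _ h3).1
              rw [valid_cons, valid_cons] at h4
              apply hB'
              rw [Finset.mem_powersetCard] at hB ⊢
              refine ⟨fun x hx => ?_, hB.2⟩
              rw [Finset.mem_sdiff]
              refine ⟨h4.2.1.1 hx, ?_⟩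
              have h5 := hB.1 hx
              rw [Finset.mem_sdiff, Finset.mem_insert] at h5
              tauto
          rw [h2]
          have h3 : bd ((X \ insert t T).powersetCard d) (fun l => z (c :: l)) l =
              - bd ((X \ insert t T).powersetCard d) z (c :: l) := by
            unfold bd
            rw [← Finset.sum_neg_distrib]
            exact Finset.sum_congr rfl fun B _ => hzA.head c B l
          rw [h3, hbd, neg_zero]
      choose! W hW hW' using key
      let w : Finset α → List (Finset α) → k := fun c l => if good c then W c l else 0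
      have hwA : ∀ c, Alt (w c) := by
        intro c
        by_cases hc : good c
        · have h1 : w c = W c := by
            funext l
            exact if_pos hc
          rw [h1]
          exact (hW c hc).1.1
        · have h1 : w c = fun _ => 0 := by
            funext l
            exact if_neg hc
          rw [h1]
          exact Alt.zero
      refine ⟨fun l => - ins w l, ⟨⟨(Alt.ins hwA).neg, ?_⟩, ?_⟩, ?_⟩
      · intro l hl
        rw [neg_ne_zero] at hl
        obtain ⟨l₁, c, l₂, rfl, hc⟩ := ins_ne_zero hl
        have hgc : good c := by
          by_contra h1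
          exact hc (if_neg h1)
        have hc' : W c (l₁ ++ l₂) ≠ 0 := by
          have h1 : w c (l₁ ++ l₂) = W c (l₁ ++ l₂) := if_pos hgc
          rwa [h1] at hc
        have h1 := (hW c hgc).1.2 _ hc'
        constructor
        · refine Valid.perm ?_ (List.perm_middle (l₁ := l₁) (a := c) (l₂ := l₂)).symm
          rw [valid_cons]
          exact ⟨⟨hgc.1, hgc.2.1⟩, h1.1⟩
        · have h2 := h1.2
          rw [List.length_append] at h2 ⊢
          rw [List.length_cons]
          omega
      · intro l hl
        rw [neg_ne_zero] at hl
        obtain ⟨l₁, c, l₂, rfl, hc⟩ := ins_ne_zero hl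
        have hgc : good c := by
          by_contra h1
          exact hc (if_neg h1)
        have hc' : W c (l₁ ++ l₂) ≠ 0 := by
          have h1 : w c (l₁ ++ l₂) = W c (l₁ ++ l₂) := if_pos hgc
          rwa [h1] at hc
        have h1 := (hW c hgc).2 _ hc'
        have h1v := ((hW c hgc).1.2 _ hc').1
        refine Cov.perm ?_ (List.perm_middle (l₁ := l₁) (a := c) (l₂ := l₂)).symm
        constructor
        · intro s hs
          rcases Finset.mem_insert.1 hs with h2 | h2
          · exact ⟨c, List.mem_cons_self, h2 ▸ hgc.2.2.1⟩
          · obtain ⟨B, hB, hsB⟩ := h1.1 s h2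
            exact ⟨B, List.mem_cons_of_mem _ hB, hsB⟩
        · intro B hB
          rcases List.mem_cons.1 hB with h2 | h2
          · rw [h2, Finset.card_le_one]
            have h3 : ∀ x ∈ c ∩ insert t T, x = t := by
              intro x hx
              rw [Finset.mem_inter, Finset.mem_insert] at hx
              rcases hx.2 with h4 | h4
              · exact h4
              · exact absurd h4 ((Finset.disjoint_left.1 hgc.2.2.2) hx.1)
            intro x hx y hy
            rw [h3 x hx, h3 y hy]
          · have h3 : B ∩ insert t T = B ∩ T := by
              apply Finset.inter_insert_of_notMem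
              intro htB
              have h4 := (h1v.1 B h2).1 htB
              rw [Finset.mem_sdiff] at h4
              exact h4.2 hgc.2.2.1
            rw [h3]
            exact h1.2 B h2
      · intro l
        rw [bd_neg, bd_ins]
        have h1 : ∑ B ∈ (X \ insert t T).powersetCard d, w B l = 0 := by
          apply Finset.sum_eq_zero
          intro B hB
          rw [Finset.mem_powersetCard] at hB
          refine if_neg ?_
          intro hg
          have h2 := hB.1 hg.2.2.1
          rw [Finset.mem_sdiff] at h2
          exact h2.2 (Finset.mem_insert_self t T)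
        rw [h1, zero_sub, neg_neg]
        have h2 : (fun c => bd ((X \ insert t T).powersetCard d) (w c)) =
            fun c l => if t ∈ c then z (c :: l) else 0 := by
          funext c l
          by_cases hc : good c
          · have h3 : w c = W c := by
              funext l
              exact if_pos hc
            rw [h3, if_pos hc.2.2.1, ← hW' c hc l]
            symm
            apply bd_subset
            · intro B hB
              rw [Finset.mem_powersetCard] at hB ⊢
              refine ⟨fun x hx => ?_, hB.2⟩
              have h3 := hB.1 hx
              rw [Finset.mem_sdiff, Finset.mem_sdiff] at h3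
              rw [Finset.mem_sdiff, Finset.mem_insert]
              refine ⟨h3.1.1, ?_⟩
              rintro (h4 | h4)
              · rw [h4] at h3; exact h3.1.2 hc.2.2.1
              · exact h3.2 h4
            · intro B hB hB'
              by_contra h3
              have h4 := ((hW c hc).1.2 _ h3).1
              rw [valid_cons] at h4
              apply hB'
              rw [Finset.mem_powersetCard] at hB ⊢
              refine ⟨fun x hx => ?_, hB.2⟩
              rw [Finset.mem_sdiff]
              refine ⟨h4.1.1 hx, ?_⟩
              have h5 := hB.1 hx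
              rw [Finset.mem_sdiff, Finset.mem_insert] at h5
              tauto
          · have h3 : w c = fun _ => 0 := by
              funext l
              exact if_neg hc
            rw [h3, bd_zero]
            split_ifs with htc
            · by_contra h4
              apply hc
              have h5 := (hzs _ (Ne.symm h4)).1
              have h6 := (hzc _ (Ne.symm h4)).2 c List.mem_cons_self
              rw [valid_cons] at h5
              refine ⟨h5.1.1, h5.1.2, htc, ?_⟩
              rw [Finset.disjoint_left]
              intro x hx hxT
              have h7 : x = t := by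
                rw [Finset.card_le_one] at h6
                apply h6
                · rw [Finset.mem_inter]
                  exact ⟨hx, Finset.mem_insert_of_mem hxT⟩
                · rw [Finset.mem_inter]
                  exact ⟨htc, Finset.mem_insert_self t T⟩
              exact ht (h7 ▸ hxT)
            · rfl
        rw [h2]
        apply ins_marked (fun c => t ∈ c) hzA
        intro l hl
        -- exactly one block contains `t`
        have h3 := (hzs _ hl).1.2
        obtain ⟨B, hB, htB⟩ := (hzc _ hl).1 t (Finset.mem_insert_self t T)
        obtain ⟨l₁, l₂, rfl⟩ := List.append_of_mem hB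
        have h4 := (List.perm_middle (l₁ := l₁) (a := B) (l₂ := l₂)).pairwise_iff
          (R := fun a b : Finset α => Disjoint a b) (fun hab => hab.symm)
        have h5 := h4.1 h3
        rw [List.pairwise_cons] at h5
        rw [(List.perm_middle (l₁ := l₁) (a := B) (l₂ := l₂)).countP_eq, List.countP_cons,
          if_pos (by simpa using htB)]
        rw [List.countP_eq_zero.2]
        intro C hC
        have h6 := h5.1 C hC
        simpa using (Finset.disjoint_left.1 h6) htB

end VK
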