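import Pool.Agent.VK.Anti
import Pool.Agent.VK.Expo

/-!
# Transfer between the squarefree model and the exponent model
-/

namespace VK

open Equiv

variable {k : Type*} [Field k] {α : Type*} [Fintype α] [DecidableEq α] {σ : Type*}
  [DecidableEq σ]

/-- the exponent of a coloured block -/
noncomputable def content (c : α → σ) (B : Finset α) : σ →₀ ℕ := ∑ x ∈ B, Finsupp.single (c x) 1

omit [Fintype α] [DecidableEq α] in
theorem content_apply (c : α → σ) (B : Finset α) (i : σ) :
    content c B i = (B.filter fun x => c x = i).card := by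
  unfold content
  rw [Finsupp.finset_sum_apply, Finset.card_filter]
  exact Finset.sum_congr rfl fun x _ => Finsupp.single_apply

omit [Fintype α] [DecidableEq α] [DecidableEq σ] in
theorem degree_content (c : α → σ) (B : Finset α) : (content c B).degree = B.card := by
  unfold content
  rw [map_sum]
  simp

omit [Fintype α] [DecidableEq σ] in
theorem content_sdiff (c : α → σ) {B X : Finset α} (h : B ⊆ X) :
    content c B + content c (X \ B) = content c X := by
  unfold content
  rw [add_comm]
  exact Finset.sum_sdiff h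

omit [Fintype α] [DecidableEq α] [DecidableEq σ] in
theorem content_mv (c : α → σ) {g : Perm α} (hg : ∀ x, c (g x) = c x) (B : Finset α) :
    content c (mv g B) = content c B := by
  unfold content mv
  rw [Finset.sum_map]
  refine Finset.sum_congr rfl fun x _ => ?_
  rw [Equiv.coe_toEmbedding, hg x]

omit [Fintype α] in
theorem content_support (c : α → σ) (X : Finset α) : (content c X).support ⊆ X.image c := by
  intro i hi
  rw [Finsupp.mem_support_iff, content_apply] at hi
  obtain ⟨x, hx⟩ := Finset.card_pos.1 (Nat.pos_of_ne_zero hi)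
  rw [Finset.mem_filter] at hx
  exact Finset.mem_image.2 ⟨x, hx.1, hx.2⟩

theorem exists_move (c : α → σ) {X B' : Finset α} (hB' : B' ⊆ X) : ∀ (r : ℕ) (B : Finset α),
    B ⊆ X → content c B = content c B' → (B \ B').card = r →
    ∃ g ∈ ST X, (∀ x, c (g x) = c x) ∧ mv g B = B' := by
  intro r
  induction r using Nat.strong_induction_on with
  | _ r ih =>
  intro B hB hcon hr
  by_cases h0 : B \ B' = ∅
  · have h1 : B ⊆ B' := Finset.sdiff_eq_empty_iff_subset.1 h0
    have h2 : B.card = B'.card := by rw [← degree_content c, ← degree_content c, hcon]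
    have h3 : B = B' := Finset.eq_of_subset_of_card_le h1 h2.ge
    exact ⟨1, one_mem_ST X, fun _ => rfl, by rw [mv_one, h3]⟩
  obtain ⟨x, hx⟩ := Finset.nonempty_iff_ne_empty.2 h0
  have hx' := Finset.mem_sdiff.1 hx
  have h1 : ∃ y ∈ B', y ∉ B ∧ c y = c x := by
    by_contra h
    push Not at h
    have h2 : B'.filter (fun y => c y = c x) ⊆ B.filter (fun y => c y = c x) := by
      intro y hy
      rw [Finset.mem_filter] at hy ⊢
      refine ⟨?_, hy.2⟩
      by_contra hyB
      exact h y hy.1 hyB hy.2
    have h3 : (B.filter (fun y => c y = c x)).card ≤ (B'.filter (fun y => c y = c x)).card := by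
      rw [← content_apply, ← content_apply, hcon]
    have h4 := Finset.eq_of_subset_of_card_le h2 h3
    have h5 : x ∈ B.filter (fun y => c y = c x) := Finset.mem_filter.2 ⟨hx'.1, rfl⟩
    rw [← h4, Finset.mem_filter] at h5
    exact hx'.2 h5.1
  obtain ⟨y, hyB', hyB, hcy⟩ := h1
  have hsw : ∀ z, c (swap x y z) = c z := by
    intro z
    by_cases h1 : z = x
    · rw [h1, swap_apply_left, hcy]
    · by_cases h2 : z = y
      · rw [h2, swap_apply_right, hcy]
      · rw [swap_apply_of_ne_of_ne h1 h2]
  have hswX : swap x y ∈ ST X := swap_mem_ST (hB hx'.1) (hB' hyB')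
  have hlt : (mv (swap x y) B \ B').card < (B \ B').card := by
    apply Finset.card_lt_card
    rw [Finset.ssubset_iff_of_subset]
    · refine ⟨x, hx, ?_⟩
      rw [Finset.mem_sdiff, mem_mv, swap_inv, swap_apply_left]
      exact fun h => hyB h.1
    · intro z hz
      rw [Finset.mem_sdiff, mem_mv, swap_inv] at hz
      rw [Finset.mem_sdiff]
      refine ⟨?_, hz.2⟩
      by_cases h1 : z = x
      · rw [h1]; exact hx'.1
      · by_cases h2 : z = y
        · exact absurd (h2 ▸ hyB') hz.2
        · rw [swap_apply_of_ne_of_ne h1 h2] at hz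
          exact hz.1
  obtain ⟨g, hg, hgc, hgB⟩ := ih _ (hr ▸ hlt) (mv (swap x y) B) (mv_subset hswX hB)
    (by rw [content_mv c hsw, hcon]) rfl
  refine ⟨g * swap x y, mul_mem_ST hg hswX, fun z => ?_, ?_⟩
  · rw [Perm.mul_apply, hgc, hsw]
  · rw [mv_mul, hgB]

theorem exists_moves {d : ℕ} (c : α → σ) : ∀ (L : List (σ →₀ ℕ)) (l l' : List (Finset α))
    (X : Finset α), Valid d X l → Valid d X l' → l.map (content c) = L →
    l'.map (content c) = L → ∃ g ∈ ST X, (∀ x, c (g x) = c x) ∧ l.map (mv g) = l' := by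
  intro L
  induction L with
  | nil =>
    intro l l' X _ _ h h'
    rw [List.map_eq_nil_iff] at h h'
    exact ⟨1, one_mem_ST X, fun _ => rfl, by rw [h, h', List.map_nil]⟩
  | cons M L ih =>
    intro l l' X hl hl' h h'
    rw [List.map_eq_cons_iff] at h h'
    obtain ⟨B, l, rfl, hBM, hL⟩ := h
    obtain ⟨B', l', rfl, hBM', hL'⟩ := h'
    have hB := (valid_cons.1 hl).1
    have hB' := (valid_cons.1 hl').1
    obtain ⟨g₁, hg₁, hg₁c, hg₁B⟩ := exists_move c hB'.1 _ B hB.1 (hBM.trans hBM'.symm) rfl
    have h1 := valid_map hg₁ hl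
    rw [List.map_cons, hg₁B] at h1
    obtain ⟨g₂, hg₂, hg₂c, hg₂l⟩ := ih (l.map (mv g₁)) l' (X \ B') (valid_cons.1 h1).2
      (valid_cons.1 hl').2
      (by
        rw [List.map_map, ← hL]
        exact List.map_congr_left fun C _ => content_mv c hg₁c C) hL'
    refine ⟨g₂ * g₁, mul_mem_ST (ST_mono Finset.sdiff_subset hg₂) hg₁, fun z => ?_, ?_⟩
    · rw [Perm.mul_apply, hg₂c, hg₁c]
    · rw [List.map_cons, mv_mul, hg₁B, ← hg₂l, List.map_map]
      congr 1
      · ext x
        rw [mem_mv]
        by_cases hx : x ∈ X \ B'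
        · have h2 := apply_mem_of_ST (inv_mem_ST hg₂) hx
          rw [Finset.mem_sdiff] at h2 hx
          exact ⟨fun h => absurd h h2.2, fun h => absurd h hx.2⟩
        · rw [(mem_ST.1 (inv_mem_ST hg₂)) x hx]
      · exact List.map_congr_left fun C _ => mv_mul g₂ g₁ C

omit [Fintype α] in
theorem exists_block (c : α → σ) (X : Finset α) {M : σ →₀ ℕ} (hM : M ≤ content c X) :
    ∃ B, B ⊆ X ∧ content c B = M := by
  have h1 : ∀ i, ∃ S, S ⊆ X.filter (fun x => c x = i) ∧ S.card = M i := by
    intro i
    apply Finset.exists_subset_card_eq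
    rw [← content_apply]
    exact hM i
  choose S hS hSc using h1
  refine ⟨X.filter fun x => x ∈ S (c x), Finset.filter_subset _ _, ?_⟩
  ext i
  rw [content_apply, ← hSc i]
  congr 1
  ext x
  rw [Finset.mem_filter, Finset.mem_filter]
  constructor
  · rintro ⟨⟨_, h2⟩, h3⟩
    rwa [h3] at h2
  · intro h
    have h2 := hS i h
    rw [Finset.mem_filter] at h2
    refine ⟨⟨h2.1, ?_⟩, h2.2⟩
    rw [h2.2]
    exact h

omit [Fintype α] in
theorem exists_real {d : ℕ} (c : α → σ) : ∀ (L : List (σ →₀ ℕ)) (X : Finset α),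
    (∀ M ∈ L, M.degree = d) → L.sum ≤ content c X →
    ∃ l, Valid d X l ∧ l.map (content c) = L := by
  intro L
  induction L with
  | nil => exact fun X _ _ => ⟨[], valid_nil d X, rfl⟩
  | cons M L ih =>
    intro X hd hL
    rw [List.sum_cons] at hL
    obtain ⟨B, hB, hBM⟩ := exists_block c X (le_trans le_self_add hL)
    have h1 := content_sdiff c hB
    obtain ⟨l, hl, hlL⟩ := ih (X \ B) (fun M hM => hd M (List.mem_cons_of_mem _ hM)) (by
      rw [← h1, hBM] at hL
      exact le_of_add_le_add_left hL)
    refine ⟨B :: l, valid_cons.2 ⟨⟨hB, ?_⟩, hl⟩, ?_⟩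
    · rw [← degree_content c, hBM]
      exact hd M List.mem_cons_self
    · rw [List.map_cons, hBM, hlL]

omit [Fintype α] in
theorem content_sum_le {d : ℕ} (c : α → σ) : ∀ (l : List (Finset α)) (X : Finset α),
    Valid d X l → (l.map (content c)).sum ≤ content c X := by
  intro l
  induction l with
  | nil => intro X _; simp
  | cons B l ih =>
    intro X h
    rw [valid_cons] at h
    rw [List.map_cons, List.sum_cons, ← content_sdiff c h.1.1]
    exact add_le_add_right (ih _ h.2) _

/-- the lists of blocks from `P` with given exponents -/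
noncomputable def real (P : Finset (Finset α)) (c : α → σ) : List (σ →₀ ℕ) →
    Finset (List (Finset α))
  | [] => {[]}
  | M :: L => ((P.filter fun B => content c B = M) ×ˢ real P c L).image fun q => q.1 :: q.2

omit [Fintype α] in
theorem mem_real {P : Finset (Finset α)} {c : α → σ} : ∀ {L : List (σ →₀ ℕ)}
    {l : List (Finset α)}, l ∈ real P c L ↔ (∀ B ∈ l, B ∈ P) ∧ l.map (content c) = L := by
  intro L
  induction L with
  | nil =>
    intro l
    rw [real, Finset.mem_singleton, List.map_eq_nil_iff]
    constructor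
    · rintro rfl
      exact ⟨fun B hB => absurd hB List.not_mem_nil, rfl⟩
    · exact fun h => h.2
  | cons M L ih =>
    intro l
    rw [real, Finset.mem_image]
    constructor
    · rintro ⟨⟨B, l'⟩, h, rfl⟩
      rw [Finset.mem_product, Finset.mem_filter, ih] at h
      refine ⟨fun C hC => ?_, ?_⟩
      · rcases List.mem_cons.1 hC with h1 | h1
        · rw [h1]; exact h.1.1
        · exact h.2.1 C h1
      · rw [List.map_cons, h.1.2, h.2.2]
    · rintro ⟨h1, h2⟩
      rw [List.map_eq_cons_iff] at h2
      obtain ⟨B, l', rfl, hBM, hL⟩ := h2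
      refine ⟨(B, l'), ?_, rfl⟩
      rw [Finset.mem_product, Finset.mem_filter, ih]
      exact ⟨⟨h1 B List.mem_cons_self, hBM⟩,
        fun C hC => h1 C (List.mem_cons_of_mem _ hC), hL⟩

/-- pushforward along a colouring -/
noncomputable def push (P : Finset (Finset α)) (c : α → σ) (z : List (Finset α) → k)
    (L : List (σ →₀ ℕ)) : k := ∑ l ∈ real P c L, z l

omit [Fintype α] in
theorem push_cons (P : Finset (Finset α)) (c : α → σ) (z : List (Finset α) → k)
    (M : σ →₀ ℕ) (L : List (σ →₀ ℕ)) :
    push P c z (M :: L) = ∑ B ∈ P.filter (fun B => content c B = M),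
      push P c (fun l => z (B :: l)) L := by
  unfold push
  rw [real, Finset.sum_image, Finset.sum_product]
  rintro ⟨a, b⟩ _ ⟨a', b'⟩ _ h
  simp only [List.cons.injEq] at h
  rw [h.1, h.2]

omit [Fintype α] in
theorem push_mul (P : Finset (Finset α)) (c : α → σ) (a : k) (z : List (Finset α) → k)
    (L : List (σ →₀ ℕ)) : push P c (fun l => a * z l) L = a * push P c z L := by
  unfold push
  rw [Finset.mul_sum]

omit [Fintype α] in
theorem push_sub (P : Finset (Finset α)) (c : α → σ) (z z' : List (Finset α) → k)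
    (L : List (σ →₀ ℕ)) :
    push P c (fun l => z l - z' l) L = push P c z L - push P c z' L := by
  unfold push
  rw [Finset.sum_sub_distrib]

omit [Fintype α] in
theorem push_swap (P : Finset (Finset α)) (c : α → σ) (ε : k) : ∀ (L₁ : List (σ →₀ ℕ))
    (z : List (Finset α) → k)
    (_ : ∀ l₁ a b l₂, z (l₁ ++ a :: b :: l₂) = ε * z (l₁ ++ b :: a :: l₂))
    (M M' : σ →₀ ℕ) (L₂ : List (σ →₀ ℕ)),
    push P c z (L₁ ++ M :: M' :: L₂) = ε * push P c z (L₁ ++ M' :: M :: L₂) := by
  intro L₁
  induction L₁ with
  | nil =>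
    intro z hz M M' L₂
    rw [List.nil_append, List.nil_append, push_cons, push_cons]
    simp only [push_cons]
    rw [Finset.sum_comm, Finset.mul_sum]
    refine Finset.sum_congr rfl fun B _ => ?_
    rw [Finset.mul_sum]
    refine Finset.sum_congr rfl fun C _ => ?_
    rw [← push_mul]
    congr 1
    funext l
    exact hz [] C B l
  | cons M₀ L₁ ih =>
    intro z hz M M' L₂
    rw [List.cons_append, List.cons_append, push_cons, push_cons, Finset.mul_sum]
    refine Finset.sum_congr rfl fun B _ => ?_
    exact ih (fun l => z (B :: l)) (fun l₁ a b l₂ => hz (B :: l₁) a b l₂) M M' L₂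

omit [Fintype α] in
theorem Alt.push (P : Finset (Finset α)) (c : α → σ) {z : List (Finset α) → k} (hz : Alt z) :
    Alt (push P c z) := by
  intro L₁ M M' L₂
  rw [push_swap P c (-1) L₁ z (fun l₁ a b l₂ => by rw [hz, neg_one_mul]), neg_one_mul]

omit [Fintype α] in
theorem bd_push {P : Finset (Finset α)} (c : α → σ) {F : Finset (σ →₀ ℕ)}
    (hF : ∀ B ∈ P, content c B ∈ F) (z : List (Finset α) → k) (L : List (σ →₀ ℕ)) :
    bd F (push P c z) L = push P c (bd P z) L := by
  unfold bd
  simp only [push_cons]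
  rw [Finset.sum_fiberwise_of_maps_to hF]
  unfold push
  rw [Finset.sum_comm]

omit [Fintype α] in
theorem push_ne_zero {P : Finset (Finset α)} {c : α → σ} {z : List (Finset α) → k}
    {L : List (σ →₀ ℕ)} (h : push P c z L ≠ 0) : ∃ l, l.map (content c) = L ∧ z l ≠ 0 := by
  obtain ⟨l, hl, hz⟩ := Finset.exists_ne_zero_of_sum_ne_zero h
  exact ⟨l, (mem_real.1 hl).2, hz⟩

omit [Fintype α] in
theorem ECh_push {d : ℕ} (c : α → σ) {X : Finset α} {F : Finset (σ →₀ ℕ)}
    (hF : ∀ B ∈ X.powersetCard d, content c B ∈ F) {p : ℕ} {z : List (Finset α) → k}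
    (hz : Ch d X p z) : ECh F (content c X) p (push (X.powersetCard d) c z) := by
  refine ⟨hz.1.push _ c, fun L hL => ?_⟩
  obtain ⟨l, rfl, hl⟩ := push_ne_zero hL
  have h1 := hz.2 l hl
  refine ⟨?_, content_sum_le c l X h1.1, by rw [List.length_map]; exact h1.2⟩
  intro b hb
  rw [List.mem_map] at hb
  obtain ⟨B, hB, rfl⟩ := hb
  exact hF B (Finset.mem_powersetCard.2 (h1.1.1 B hB))

variable (k) in
/-- the number of realisations of a list of exponents -/
noncomputable def cnt (d : ℕ) (X : Finset α) (c : α → σ) (L : List (σ →₀ ℕ)) : k := by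
  classical exact push (X.powersetCard d) c (fun l => if Valid d X l then 1 else 0) L

omit [Fintype α] in
theorem cnt_swap (d : ℕ) (X : Finset α) (c : α → σ) (L₁ : List (σ →₀ ℕ)) (M M' : σ →₀ ℕ)
    (L₂ : List (σ →₀ ℕ)) :
    cnt k d X c (L₁ ++ M :: M' :: L₂) = cnt k d X c (L₁ ++ M' :: M :: L₂) := by
  classical
  unfold cnt
  rw [push_swap _ c 1, one_mul]
  intro l₁ a b l₂
  rw [one_mul]
  exact if_congr (valid_iff_perm (perm_swap l₁ a b l₂)) rfl rfl

omit [Fintype α] in
theorem cnt_ne_zero [CharZero k] {d : ℕ} {X : Finset α} {c : α → σ} {l : List (Finset α)}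
    (hl : Valid d X l) : cnt k d X c (l.map (content c)) ≠ 0 := by
  classical
  unfold cnt push
  rw [Finset.sum_boole, Nat.cast_ne_zero]
  refine (Finset.card_pos.2 ⟨l, ?_⟩).ne'
  rw [Finset.mem_filter, mem_real]
  exact ⟨⟨fun B hB => Finset.mem_powersetCard.2 (hl.1 B hB), rfl⟩, hl⟩

omit [Fintype α] in
/-- if `z` is supported on valid lists and only depends on the exponents then `push` multiplies
by `cnt` -/
theorem push_const {d : ℕ} {X : Finset α} {c : α → σ} {z : List (Finset α) → k}
    (hz : ∀ l, z l ≠ 0 → Valid d X l) {L : List (σ →₀ ℕ)} {a : k}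
    (h : ∀ l, Valid d X l → l.map (content c) = L → z l = a) :
    push (X.powersetCard d) c z L = cnt k d X c L * a := by
  classical
  unfold cnt push
  rw [Finset.sum_mul]
  refine Finset.sum_congr rfl fun l hl => ?_
  by_cases hv : Valid d X l
  · rw [if_pos hv, one_mul]
    exact h l hv (mem_real.1 hl).2
  · rw [if_neg hv, zero_mul]
    by_contra h0
    exact hv (hz l h0)

/-- `push` is injective on invariant functions -/
theorem push_inj [CharZero k] {d : ℕ} {X : Finset α} (c : α → σ) {z : List (Finset α) → k}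
    (hz : ∀ l, z l ≠ 0 → Valid d X l)
    (hinv : ∀ g ∈ ST X, (∀ x, c (g x) = c x) → rho k α g z = z)
    (h : ∀ L, push (X.powersetCard d) c z L = 0) (l : List (Finset α)) : z l = 0 := by
  by_contra h0
  have hl := hz l h0
  have h1 : push (X.powersetCard d) c z (l.map (content c)) =
      cnt k d X c (l.map (content c)) * z l := by
    apply push_const hz
    intro l' hl' hcon
    obtain ⟨g, hg, hgc, rfl⟩ := exists_moves c _ l l' X hl hl' rfl hcon
    have h2 : rho k α g⁻¹ z = z := by
      apply hinv _ (inv_mem_ST hg)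
      intro x
      rw [← hgc (g⁻¹ x)]
      simp
    have h3 := congrFun h2 l
    rw [rho_apply, inv_inv] at h3
    exact h3
  rw [h] at h1
  exact mul_ne_zero (cnt_ne_zero hl) h0 h1.symm

variable (k) in
/-- the lift of a function of exponents -/
noncomputable def lift (d : ℕ) (X : Finset α) (c : α → σ) (u : List (σ →₀ ℕ) → k)
    (l : List (Finset α)) : k := by
  classical exact
    if Valid d X l then (cnt k d X c (l.map (content c)))⁻¹ * u (l.map (content c)) else 0

omit [Fintype α] in
theorem lift_ne_zero {d : ℕ} {X : Finset α} {c : α → σ} {u : List (σ →₀ ℕ) → k}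
    {l : List (Finset α)} (h : lift k d X c u l ≠ 0) :
    Valid d X l ∧ u (l.map (content c)) ≠ 0 := by
  classical
  unfold lift at h
  split_ifs at h with h1
  · exact ⟨h1, right_ne_zero_of_mul h⟩
  · exact absurd rfl h

omit [Fintype α] in
theorem Ch_lift {d p : ℕ} {X : Finset α} {c : α → σ} {F : Finset (σ →₀ ℕ)}
    {u : List (σ →₀ ℕ) → k} (hu : ECh F (content c X) p u) : Ch d X p (lift k d X c u) := by
  classical
  constructor
  · intro l₁ a b l₂
    unfold lift
    by_cases h : Valid d X (l₁ ++ a :: b :: l₂)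
    · rw [if_pos h, if_pos ((valid_iff_perm (perm_swap l₁ a b l₂)).1 h)]
      simp only [List.map_append, List.map_cons]
      rw [cnt_swap, hu.1]
      ring
    · rw [if_neg h, if_neg fun h' => h ((valid_iff_perm (perm_swap l₁ a b l₂)).2 h'), neg_zero]
  · intro l hl
    obtain ⟨h1, h2⟩ := lift_ne_zero hl
    refine ⟨h1, ?_⟩
    have h3 := (hu.2 _ h2).2.2
    rwa [List.length_map] at h3

omit [Fintype α] in
theorem push_lift [CharZero k] {d p : ℕ} {X : Finset α} {c : α → σ} {F : Finset (σ →₀ ℕ)}
    (hdeg : ∀ b ∈ F, b.degree = d)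
    {u : List (σ →₀ ℕ) → k} (hu : ECh F (content c X) p u) (L : List (σ →₀ ℕ)) :
    push (X.powersetCard d) c (lift k d X c u) L = u L := by
  classical
  have h1 : push (X.powersetCard d) c (lift k d X c u) L =
      cnt k d X c L * ((cnt k d X c L)⁻¹ * u L) := by
    apply push_const (fun l hl => (lift_ne_zero hl).1)
    intro l hl hcon
    unfold lift
    rw [if_pos hl, hcon]
  rw [h1]
  by_cases h : u L = 0
  · rw [h, mul_zero, mul_zero]
  · have h2 := hu.2 L h
    obtain ⟨l, hl, hlL⟩ := exists_real (d := d) c L X (fun M hM => hdeg M (h2.1 M hM)) h2.2.1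
    rw [← mul_assoc, mul_inv_cancel₀, one_mul]
    rw [← hlL]
    exact cnt_ne_zero hl

theorem lift_inv {d : ℕ} {X : Finset α} {c : α → σ} (u : List (σ →₀ ℕ) → k) {g : Perm α}
    (hg : g ∈ ST X) (hgc : ∀ x, c (g x) = c x) :
    rho k α g (lift k d X c u) = lift k d X c u := by
  classical
  funext l
  rw [rho_apply]
  unfold lift
  have hgc' : ∀ x, c (g⁻¹ x) = c x := by
    intro x
    rw [← hgc (g⁻¹ x)]
    simp
  have h1 : (l.map (mv g⁻¹)).map (content c) = l.map (content c) := by
    rw [List.map_map]
    exact List.map_congr_left fun B _ => content_mv c hgc' B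
  rw [h1]
  refine if_congr ?_ rfl rfl
  constructor
  · intro h
    have h2 := valid_map hg h
    rwa [map_mv_inv] at h2
  · exact fun h => valid_map (inv_mem_ST hg) h

/-- exactness in the exponent model gives exactness for invariant cycles -/
theorem inv_boundary [CharZero k] {d p : ℕ} {X : Finset α} (c : α → σ)
    {F : Finset (σ →₀ ℕ)} (hF : ∀ B ∈ X.powersetCard d, content c B ∈ F)
    (hdeg : ∀ b ∈ F, b.degree = d) (hex : EEx k F (content c X) p)
    {z : List (Finset α) → k} (hz : z ∈ ChS k d X p) (hbd : bdL (X.powersetCard d) z = 0)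
    (hinv : ∀ g ∈ ST X, (∀ x, c (g x) = c x) → rho k α g z = z) :
    ∃ w ∈ ChS k d X (p + 1), bdL (X.powersetCard d) w = z := by
  set P := X.powersetCard d with hP
  have h1 : ∀ L, bd F (push P c z) L = 0 := by
    intro L
    rw [bd_push c hF]
    have h2 : bd P z = fun _ => 0 := hbd
    rw [h2]
    exact Finset.sum_const_zero
  obtain ⟨u, hu, hubd⟩ := hex _ (ECh_push c hF hz) h1
  have hw : lift k d X c u ∈ ChS k d X (p + 1) := Ch_lift hu
  refine ⟨lift k d X c u, hw, ?_⟩
  have h3 : ∀ l, (fun l => bdL P (lift k d X c u) l - z l) l = 0 := by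
    apply push_inj (d := d) c
    · intro l hl
      by_cases h4 : z l = 0
      · have h5 : bd P (lift k d X c u) l ≠ 0 := by
          intro h5
          apply hl
          change bd P (lift k d X c u) l - z l = 0
          rw [h5, h4, sub_zero]
        obtain ⟨B, _, hB⟩ := Finset.exists_ne_zero_of_sum_ne_zero h5
        have h6 := (hw.2 _ hB).1
        rw [valid_cons] at h6
        exact h6.2.mono Finset.sdiff_subset
      · exact (hz.2 l h4).1
    · intro g hg hgc
      have h4 : (fun l => bdL P (lift k d X c u) l - z l) = bdL P (lift k d X c u) - z := rfl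
      rw [h4, map_sub, hinv g hg hgc, hP, ← bdL_rho hg, lift_inv u hg hgc]
    · intro L
      rw [push_sub]
      have h4 : push P c (bdL P (lift k d X c u)) L = bd F (push P c (lift k d X c u)) L := by
        rw [bd_push c hF]
        rfl
      have h5 : push P c (lift k d X c u) = u := by
        funext L
        exact push_lift hdeg hu L
      rw [h4, h5, hubd, sub_self]
  funext l
  exact sub_eq_zero.1 (h3 l)

/-- exactness of the squarefree model gives exactness in the exponent model -/
theorem eex_of_ex [CharZero k] {d p : ℕ} {X : Finset α} (c : α → σ)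
    {F : Finset (σ →₀ ℕ)} (hF : ∀ B ∈ X.powersetCard d, content c B ∈ F)
    (hdeg : ∀ b ∈ F, b.degree = d) (hex : Ex k d X p) : EEx k F (content c X) p := by
  intro y hy hybd
  set P := X.powersetCard d with hP
  have hz : Ch d X p (lift k d X c y) := Ch_lift hy
  have h5 : push P c (lift k d X c y) = y := by
    funext L
    exact push_lift hdeg hy L
  have h1 : ∀ l, bd P (lift k d X c y) l = 0 := by
    apply push_inj (d := d) c
    · intro l hl
      obtain ⟨B, _, hB⟩ := Finset.exists_ne_zero_of_sum_ne_zero hl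
      have h6 := (hz.2 _ hB).1
      rw [valid_cons] at h6
      exact h6.2.mono Finset.sdiff_subset
    · intro g hg hgc
      have h4 : bd P (lift k d X c y) = bdL P (lift k d X c y) := rfl
      rw [h4, hP, ← bdL_rho hg, lift_inv y hg hgc]
    · intro L
      rw [← bd_push c hF, h5, hybd]
  obtain ⟨w, hw, hwbd⟩ := hex _ hz h1
  refine ⟨push P c w, ECh_push c hF hw, fun L => ?_⟩
  rw [bd_push c hF]
  have h2 : bd P w = lift k d X c y := by
    funext l
    exact hwbd l
  rw [h2, h5]

end VK
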